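import Pool.Agent.Work.MP_db9399_da_helper45.PAR1

/-!
# MP_db9399, DENSE-ALL, phase 2: FRE (helper26), choice of a fresh colour
-/

set_option autoImplicit false

namespace Pool.Agent.Work.MP_db9399_da.helper26

open Finset Classical
open Pool.Agent.Work.MP_db9399_all (nb)
open Pool.Agent.Work.MP_db9399_lt (us)
open Pool.Agent.Work.MP_db9399_da
open Pool.Agent.Work.MP_db9399_da.helper82 (EC StepR alc)
open Pool.Agent.Work.MP_db9399_da.helper45 (mem_nbp thin2_V0 mem_Fc2 cnt_col)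

universe u

namespace FRE

section
variable {C g ρ K π κ ε ε2 σ τ ζ θ : ℝ} {M k k2 K5 L : ℕ} {V : Type u} [Fintype V]
    {G : SimpleGraph V} {d : ℕ} {P : Pcs V M} {A : Pal} {X : HD V} {Ss : Finset ℕ}
    {t0 : V → V → ℕ} {c : V → ℕ} {Sp : Finset ℕ} {Bd : Finset ℕ} {s : ℕ} {t : V → V → ℕ}
    {U : Finset ℕ}

theorem mem_Fc (t : V → V → ℕ) (v : V) (b : ℕ) :
    b ∈ Fc G P t v ↔ ∃ w, (thin G P).Adj v w ∧ t v w = b := by
  unfold Fc
  rw [mem_image]
  simp only [mem_nbp]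

/-- edges outside `H` in `thin2` are thin -/
theorem thin_of {v w : V} (h : (thin2 G X P).Adj v w) (hH : ¬ X.H.Adj v w) :
    (thin G P).Adj v w :=
  ⟨h.1, fun h' => h.2 ⟨h', hH⟩⟩

/-- few members with a given colour -/
theorem load (cx : Cx C g ρ K π κ ε ε2 σ τ ζ θ k k2 K5 L G d P A X Ss t0 c Sp)
    (st : PSt τ ζ G d P A X Ss t0 c Bd s t U) (f : ℕ) :
    ((univ.filter (fun x => x ∉ P.V0 ∧ x ∉ X.VH ∧ f ∈ Fc2 G X P t x)).card : ℝ) ≤
      M * (ε * ζ * d) + 4 * s := by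
  -- old
  set S1 := univ.filter (fun x => x ∉ P.V0 ∧ f ∈ Fc G P t0 x) with hS1
  set S2 := ((univ : Finset (V × V)).filter (fun p => (thin2 G X P).Adj p.1 p.2 ∧
    ¬ X.H.Adj p.1 p.2 ∧ t p.1 p.2 ≠ t0 p.1 p.2)).image (fun p => p.1) with hS2
  have h1 : univ.filter (fun x => x ∉ P.V0 ∧ x ∉ X.VH ∧ f ∈ Fc2 G X P t x) ⊆ S1 ∪ S2 := by
    intro x hx
    rw [mem_filter] at hx
    obtain ⟨-, hx0, hxH, hf⟩ := hx
    rw [mem_Fc2] at hf
    obtain ⟨w, hw, he⟩ := hf
    have hH : ¬ X.H.Adj x w := fun h =>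
      helper45.not_H cx.hp cx.sup hx0 hxH h.symm
    rw [mem_union]
    by_cases h2 : t x w = t0 x w
    · left
      rw [hS1, mem_filter, mem_Fc]
      exact ⟨mem_univ _, hx0, w, thin_of hw hH, by rw [← h2]; exact he⟩
    · right
      rw [hS2, mem_image]
      exact ⟨(x, w), by rw [mem_filter]; exact ⟨mem_univ _, hw, hH, h2⟩, rfl⟩
  have h2 : (S2.card : ℝ) ≤ 4 * s := by
    have h3 := (card_image_le (s := (univ : Finset (V × V)).filter (fun p =>
      (thin2 G X P).Adj p.1 p.2 ∧ ¬ X.H.Adj p.1 p.2 ∧ t p.1 p.2 ≠ t0 p.1 p.2))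
      (f := fun p => p.1)).trans st.cn
    exact_mod_cast h3
  have h3 : (S1.card : ℝ) ≤ M * (ε * ζ * d) := by
    have h4 : S1.card = ∑ n : Fin M, (S1.filter (fun x => P.pc x = n)).card :=
      card_eq_sum_card_fiberwise (fun _ _ => mem_coe.2 (mem_univ _))
    rw [h4]
    push_cast
    have h5 : ∀ n : Fin M, (((S1.filter (fun x => P.pc x = n)).card : ℕ) : ℝ) ≤ ε * ζ * d := by
      intro n
      refine le_trans ?_ (cx.pre.load n f)
      have h6 : S1.filter (fun x => P.pc x = n) ⊆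
          (us (Fn G P t0 n) f).image (fun y => y.1) := by
        intro x hx
        rw [mem_filter, hS1, mem_filter] at hx
        rw [mem_image]
        refine ⟨⟨x, hx.1.2.1, hx.2⟩, ?_, rfl⟩
        unfold us
        rw [mem_filter]
        exact ⟨mem_univ _, hx.1.2.2⟩
      exact_mod_cast (card_le_card h6).trans card_image_le
    calc ∑ n : Fin M, (((S1.filter (fun x => P.pc x = n)).card : ℕ) : ℝ) ≤
          ∑ n : Fin M, (ε * ζ * d) := sum_le_sum fun n _ => h5 n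
      _ = M * (ε * ζ * d) := by rw [sum_const, card_univ, Fintype.card_fin, nsmul_eq_mul]
  have h4 := (card_le_card h1).trans (card_union_le S1 S2)
  have h5 : ((univ.filter (fun x => x ∉ P.V0 ∧ x ∉ X.VH ∧ f ∈ Fc2 G X P t x)).card : ℝ) ≤
      S1.card + S2.card := by exact_mod_cast h4
  linarith

/-- few colours at a member -/
theorem card_Fc2 (cx : Cx C g ρ K π κ ε ε2 σ τ ζ θ k k2 K5 L G d P A X Ss t0 c Sp) {v : V}
    (hv : v ∉ P.V0) : ((Fc2 G X P t v).card : ℝ) ≤ ζ * d + 1 := by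
  have h1 : (Fc2 G X P t v).card ≤ (nb (thin2 G X P) v).card := card_image_le
  have h2 : nb (thin2 G X P) v ⊆ nb (thin G P) v ∪ nb X.H v := by
    intro w hw
    rw [mem_nbp] at hw
    rw [mem_union, mem_nbp, mem_nbp]
    by_cases hH : X.H.Adj v w
    · exact Or.inr hH
    · exact Or.inl (thin_of hw hH)
  have h3 : (nb X.H v).card ≤ 1 := by
    rw [card_le_one]
    intro a ha b hb
    rw [mem_nbp] at ha hb
    exact cx.hp.Hm v a b ha hb
  have h4 := (h1.trans (card_le_card h2)).trans (card_union_le _ _)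
  have h5 : (Fc2 G X P t v).card ≤ (nb (thin G P) v).card + 1 := by omega
  have h6 : ((Fc2 G X P t v).card : ℝ) ≤ (nb (thin G P) v).card + 1 := by exact_mod_cast h5
  have h7 := cx.dec.thd v hv
  linarith

/-- the unbalanced colours -/
noncomputable def Ub (τ : ℝ) (G : SimpleGraph V) (d : ℕ) (P : Pcs V M) (A : Pal)
    (t0 : V → V → ℕ) : Finset ℕ :=
  (univ.filter (fun n : Fin M => ZT τ G d P A t0 n)).biUnion
    (fun n => (P1 d A.Q A.P2).filter (fun b => sg (Fn G P t0 n) (sdn P n) b ≠ 0))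

theorem Ub_card (hτ : 0 ≤ τ) : ((Ub τ G d P A t0).card : ℝ) ≤ M * (τ * d) := by
  unfold Ub
  have h1 := card_biUnion_le (s := univ.filter (fun n : Fin M => ZT τ G d P A t0 n))
    (t := fun n => (P1 d A.Q A.P2).filter (fun b => sg (Fn G P t0 n) (sdn P n) b ≠ 0))
  have h2 : (((univ.filter (fun n : Fin M => ZT τ G d P A t0 n)).biUnion
      (fun n => (P1 d A.Q A.P2).filter (fun b => sg (Fn G P t0 n) (sdn P n) b ≠ 0))).card : ℝ) ≤
      ∑ n ∈ univ.filter (fun n : Fin M => ZT τ G d P A t0 n),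
        (((P1 d A.Q A.P2).filter (fun b => sg (Fn G P t0 n) (sdn P n) b ≠ 0)).card : ℝ) := by
    exact_mod_cast h1
  refine h2.trans ?_
  have hd0 : (0 : ℝ) ≤ τ * d := mul_nonneg hτ (Nat.cast_nonneg d)
  calc ∑ n ∈ univ.filter (fun n : Fin M => ZT τ G d P A t0 n),
        (((P1 d A.Q A.P2).filter (fun b => sg (Fn G P t0 n) (sdn P n) b ≠ 0)).card : ℝ)
      ≤ ∑ n ∈ univ.filter (fun n : Fin M => ZT τ G d P A t0 n), (τ * d) :=
        sum_le_sum (fun n hn => (mem_filter.1 hn).2.2)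
    _ ≤ M * (τ * d) := by
        rw [sum_const, nsmul_eq_mul]
        apply mul_le_mul_of_nonneg_right _ hd0
        have := card_filter_le (univ : Finset (Fin M)) (fun n => ZT τ G d P A t0 n)
        rw [card_univ, Fintype.card_fin] at this
        exact_mod_cast this

/-- balanced untouched colours stay balanced -/
theorem zero_of (st : PSt τ ζ G d P A X Ss t0 c Bd s t U) {b : ℕ} (hb : b < d + 2)
    (h1 : b ∉ Ss) (h2 : b ∉ Bd) (h3 : b ∉ U) (hP1 : b ∈ P1 d A.Q A.P2)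
    (h4 : b ∉ Ub τ G d P A t0) (n : Fin M) (hn : ZT τ G d P A t0 n) :
    sg (Fn2 G X P t n) (sdn P n) b = 0 := by
  have h5 : us (Fn2 G X P t n) b = us (Fn G P t0 n) b := by
    unfold us
    apply filter_congr
    intro v _
    exact st.tc b hb h1 h2 h3 v.1 v.2.1
  unfold sg
  rw [h5]
  by_contra h6
  apply h4
  unfold Ub
  rw [mem_biUnion]
  refine ⟨n, ?_, ?_⟩
  · rw [mem_filter]; exact ⟨mem_univ _, hn⟩
  · rw [mem_filter]; exact ⟨hP1, h6⟩

/-- the numbers -/
theorem numb (h : Nu C g ρ K π κ ε ε2 σ τ ζ θ M k k2 K5 L d) :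
    0 < σ * d ∧ (4 * κ + 2 * π) * d ≤ 6 * (σ * d) / 1000 ∧ θ * d ≤ σ * d / 1000 ∧
      M * (τ * d) ≤ σ * d / 1000 ∧ ζ * d ≤ σ * d / 1000 ∧
      M * (ε * ζ * d) ≤ σ * d / 1000 ∧ 10 ^ 6 * (L : ℝ) ≤ σ * d := by
  have hL1 : (1 : ℝ) ≤ L := by exact_mod_cast h.L1
  have hL0 : (0 : ℝ) < L := by linarith
  have hM : (M : ℝ) ≤ L := by exact_mod_cast h.ML
  have hM0 : (0 : ℝ) ≤ M := Nat.cast_nonneg M
  have hLL : (L : ℝ) ≤ (L : ℝ) ^ 2 := by nlinarith
  have h1L2 : (1 : ℝ) ≤ (L : ℝ) ^ 2 := by linarith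
  obtain ⟨hd, r, hr0, hrd, n1, n2, n3, n4, n5, n6, n7, n8⟩ := helper45.numb h
  have hσ := h.σ0
  have hσd : 0 < σ * d := mul_pos hσ hd
  have hζ := h.ζ0
  have hτ := h.τ0
  have hε := h.ε0
  refine ⟨hσd, ?_, by linarith, ?_, ?_, ?_, ?_⟩
  · have h1 := mul_le_mul_of_nonneg_right h.κσ hd.le
    have h2 := mul_le_mul_of_nonneg_right h.πσ hd.le
    linarith
  · have h1 : 10 ^ 6 * (M : ℝ) * τ ≤ σ := by
      have h2 := h.τL
      have h3 : (M : ℝ) * τ ≤ (L : ℝ) ^ 2 * τ := mul_le_mul_of_nonneg_right (by linarith) hτ.le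
      linarith
    have h2 := mul_le_mul_of_nonneg_right h1 hd.le
    linarith
  · have h1 : 10 ^ 6 * ζ ≤ σ := by
      have h2 := h.ζL
      have h3 : 1 * ζ ≤ (L : ℝ) ^ 2 * ζ := mul_le_mul_of_nonneg_right h1L2 hζ.le
      linarith
    have h2 := mul_le_mul_of_nonneg_right h1 hd.le
    linarith
  · have h0 : ε ≤ 1 := by
      have h1 := h.ετ
      have h2 := h.τL
      have h3 : 1 * τ ≤ (L : ℝ) ^ 2 * τ := mul_le_mul_of_nonneg_right h1L2 hτ.le
      have h4 := h.σ1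
      linarith
    have h1 : 10 ^ 6 * ((M : ℝ) * ζ) ≤ σ := by
      have h2 := h.ζL
      have h3 : (M : ℝ) * ζ ≤ (L : ℝ) ^ 2 * ζ := mul_le_mul_of_nonneg_right (by linarith) hζ.le
      linarith
    have h2 : M * (ε * ζ * d) ≤ 1 * (M * ζ * d) := by
      have h3 : 0 ≤ (M : ℝ) * ζ * d := by positivity
      have h4 := mul_le_mul_of_nonneg_right h0 h3
      linarith
    have h5 := mul_le_mul_of_nonneg_right h1 hd.le
    linarith
  · linarith

end

end FRE

open FRE in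
/-- FRE -/
theorem stmt_FRE : Stmt_FRE.{u} := by
  intro C g ρ K π κ ε ε2 σ τ ζ θ M k k2 K5 L V _ G d P A X Ss t0 c Sp cx Bd s t U st hBd hs
    z v f Cs hz hv hCs hCs0 hcard
  obtain ⟨hσd, n1, n2, n3, n4, n5, n6⟩ := FRE.numb cx.nu
  by_contra hcon
  push Not at hcon
  -- the bad sets
  set Q1 := A.Q false ∪ A.Q true ∪ A.P2 with hQ1
  set E := Ss ∪ Sp2 P X c ∪ Bd ∪ U with hE
  set B1 := (nb G z).filter (fun x => t z x ∈ Q1) with hB1
  set B2 := (nb G z).filter (fun x => t z x ∈ E) with hB2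
  set B3 := (nb G z).filter (fun x => t z x ∈ Ub τ G d P A t0) with hB3
  set B4 := (nb G z).filter (fun x => t z x ∈ Fc2 G X P t v) with hB4
  set B5 := X.VH ∪ {v} with hB5
  set B6 := univ.filter (fun x => x ∉ P.V0 ∧ x ∉ X.VH ∧ f ∈ Fc2 G X P t x) with hB6
  set B7 := (nb G z).filter (fun x => t z x ∈ (if z ∈ X.S0 then X.ne z v else ∅)) with hB7
  have hsub : Cs ⊆ B1 ∪ B2 ∪ B3 ∪ B4 ∪ B5 ∪ B6 ∪ B7 := by
    intro x hx
    by_contra hno
    simp only [mem_union, not_or] at hno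
    obtain ⟨⟨⟨⟨⟨⟨o1, o2⟩, o3⟩, o4⟩, o5⟩, o6⟩, o7⟩ := hno
    have hxz := hCs hx
    have hx0 := hCs0 x hx
    rw [hB1, mem_filter, not_and] at o1
    rw [hB2, mem_filter, not_and] at o2
    rw [hB3, mem_filter, not_and] at o3
    rw [hB4, mem_filter, not_and] at o4
    rw [hB5, mem_union, mem_singleton, not_or] at o5
    rw [hB7, mem_filter, not_and] at o7
    have p1 := o1 hxz
    have p2 := o2 hxz
    have p3 := o3 hxz
    have p4 := o4 hxz
    have p7 := o7 hxz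
    have hadj : G.Adj z x := (mem_nbp G z x).1 hxz
    have hnH : ¬ X.H.Adj z x := helper45.not_H cx.hp cx.sup hx0 o5.1
    have hlt : t z x < d + 2 := st.lt z x (thin2_V0 hz hadj) hnH
    have hP1 : t z x ∈ P1 d A.Q A.P2 := by
      unfold P1
      rw [mem_sdiff, mem_range]
      exact ⟨hlt, p1⟩
    have p2' : t z x ∉ Ss ∧ t z x ∉ Bd ∧ t z x ∉ U := by
      rw [hE] at p2
      simp only [mem_union, not_or] at p2
      exact ⟨p2.1.1.1, p2.1.2, p2.2⟩
    have hf : f ∉ Fc2 G X P t x := by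
      intro h
      apply o6
      rw [hB6, mem_filter]
      exact ⟨mem_univ _, hx0, o5.1, h⟩
    obtain ⟨hzS, h7⟩ := hcon x hx o5.2 o5.1 hnH hP1 p2
      (fun n hn => FRE.zero_of st hlt p2'.1 p2'.2.1 p2'.2.2 hP1 p3 n hn) p4 hf
    rw [if_pos hzS] at p7
    exact p7 h7
  have c1 : (B1.card : ℝ) ≤ (4 * κ + 2 * π) * d := by
    have h1 := cnt_col (G := G) (X := X) (P := P) st.ec hz Q1
    have h2 : Q1.card ≤ (A.Q false ∪ A.Q true).card + A.P2.card :=
      card_union_le (A.Q false ∪ A.Q true) A.P2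
    have h3 := card_union_le (A.Q false) (A.Q true)
    have h4 : B1.card ≤ (A.Q false).card + (A.Q true).card + A.P2.card := by
      rw [hB1]; omega
    have h5 : (B1.card : ℝ) ≤ (A.Q false).card + (A.Q true).card + A.P2.card := by
      exact_mod_cast h4
    have h6 := (cx.pal.Qc false).2
    have h7 := (cx.pal.Qc true).2
    have h8 := cx.pal.Pc.2
    linarith
  have c2 : (B2.card : ℝ) ≤ θ * d + 201 * L := by
    have h0 := cnt_col (G := G) (X := X) (P := P) st.ec hz E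
    have h1 : E.card ≤ (Ss ∪ Sp2 P X c ∪ Bd).card + U.card :=
      card_union_le (Ss ∪ Sp2 P X c ∪ Bd) U
    have h2 := card_union_le (Ss ∪ Sp2 P X c) Bd
    have h3 := card_union_le Ss (Sp2 P X c)
    have h4 := cx.sk
    have h5 := cx.nu.k2L
    have h6 := st.Uc
    have h7 : (Sp2 P X c).card ≤ P.V0.card := by
      unfold Sp2
      exact card_image_le.trans (card_le_card sdiff_subset)
    have h8 : B2.card ≤ P.V0.card + 201 * L := by rw [hB2]; omega
    have h9 := cx.dec.V0c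
    have h10 : (B2.card : ℝ) ≤ P.V0.card + 201 * L := by exact_mod_cast h8
    linarith
  have c3 : (B3.card : ℝ) ≤ M * (τ * d) := by
    have h0 := cnt_col (G := G) (X := X) (P := P) st.ec hz (Ub τ G d P A t0)
    refine le_trans ?_ (FRE.Ub_card (G := G) (P := P) (A := A) (t0 := t0) (d := d) cx.nu.τ0.le)
    exact_mod_cast h0
  have c4 : (B4.card : ℝ) ≤ ζ * d + 1 := by
    have h0 := cnt_col (G := G) (X := X) (P := P) st.ec hz (Fc2 G X P t v)
    refine le_trans ?_ (FRE.card_Fc2 (t := t) cx hv)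
    exact_mod_cast h0
  have c5 : (B5.card : ℝ) ≤ L + 1 := by
    have h1 := card_union_le X.VH {v}
    rw [card_singleton] at h1
    have h2 := cx.hp.VHk
    have h3 := cx.nu.kL
    have h4 : B5.card ≤ L + 1 := by rw [hB5]; omega
    exact_mod_cast h4
  have c6 : (B6.card : ℝ) ≤ M * (ε * ζ * d) + 400 * L := by
    have h1 := FRE.load cx st f
    have h2 : (s : ℝ) ≤ 100 * L := by exact_mod_cast hs
    rw [hB6]
    linarith
  have c7 : (B7.card : ℝ) ≤ 2 := by
    have h0 := cnt_col (G := G) (X := X) (P := P) st.ec hz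
      (if z ∈ X.S0 then X.ne z v else ∅)
    have h1 : (if z ∈ X.S0 then X.ne z v else ∅).card ≤ 2 := by
      split_ifs with h
      · exact (cx.hp.ne2 z h v).2
      · simp
    have h2 : B7.card ≤ 2 := h0.trans h1
    exact_mod_cast h2
  have htot : (Cs.card : ℝ) ≤ B1.card + B2.card + B3.card + B4.card + B5.card + B6.card +
      B7.card := by
    have h1 := card_le_card hsub
    have h2 := card_union_le (B1 ∪ B2 ∪ B3 ∪ B4 ∪ B5 ∪ B6) B7
    have h3 := card_union_le (B1 ∪ B2 ∪ B3 ∪ B4 ∪ B5) B6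
    have h4 := card_union_le (B1 ∪ B2 ∪ B3 ∪ B4) B5
    have h5 := card_union_le (B1 ∪ B2 ∪ B3) B4
    have h6 := card_union_le (B1 ∪ B2) B3
    have h7 := card_union_le B1 B2
    have h8 : Cs.card ≤ B1.card + B2.card + B3.card + B4.card + B5.card + B6.card +
      B7.card := by omega
    exact_mod_cast h8
  have hL1 : (1 : ℝ) ≤ L := by exact_mod_cast cx.nu.L1
  linarith

end Pool.Agent.Work.MP_db9399_da.helper26
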