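import Pool.Agent.Work.MP_db9399_da.Pre2
import Pool.Agent.Work.MP_db9399_dp.PreE

/-!
# MP_db9399, DENSE-ALL, phase 2: PRX (helper26), PRE2 from the blocks of `Pre2.lean`
-/

set_option autoImplicit false

namespace Pool.Agent.Work.MP_db9399_da.helper26

open Finset Classical
open Pool.Agent.Work.MP_db9399_all (nb)
open Pool.Agent.Work.MP_db9399_lt (us)
open Pool.Agent.Work.MP_db9399_da
open Pool.Agent.Work.MP_db9399_da.helper82 (EC StepR alc)

universe u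

namespace PRX

section fin
variable {V : Type u} [Fintype V] {M : ℕ}
variable {C g ρ K π κ ε ε2 σ τ ζ θ : ℝ} {k k2 K5 L : ℕ} {G : SimpleGraph V} {d : ℕ}
  {P : Pcs V M} {A : Pal} {X : HD V} {Ss : Finset ℕ} {t0 : V → V → ℕ} {c : V → ℕ}
  {Sp : Finset ℕ} {Bd : Finset ℕ} {s : ℕ} {t : V → V → ℕ} {U : Finset ℕ}

theorem mem_nb' (G : SimpleGraph V) (v w : V) : w ∈ nb G v ↔ G.Adj v w := by
  simp [nb]

theorem mem_Fc2 (t : V → V → ℕ) (v : V) (b : ℕ) :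
    b ∈ Fc2 G X P t v ↔ ∃ w, (thin2 G X P).Adj v w ∧ t v w = b := by
  unfold Fc2
  rw [mem_image]
  simp only [mem_nb']

/-- edges outside `H` in `thin2` are thin -/
theorem thin_of (v w : V) (h : (thin2 G X P).Adj v w) (hH : ¬ X.H.Adj v w) :
    (thin G P).Adj v w :=
  ⟨h.1, fun h' => h.2 ⟨h', hH⟩⟩

theorem S0_sub (cx : Cx C g ρ K π κ ε ε2 σ τ ζ θ k k2 K5 L G d P A X Ss t0 c Sp) (z : V)
    (hz : z ∈ X.S0) : z ∈ P.V0 := (cx.sup z hz).1

/-- `h0` of an end of `H` is special -/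
theorem h0_Ss (cx : Cx C g ρ K π κ ε ε2 σ τ ζ θ k k2 K5 L G d P A X Ss t0 c Sp) (v w : V)
    (h : X.H.Adj v w) : X.h0 v ∈ Ss := by
  rcases cx.hp.HH v w h with h1 | h1
  · exact (cx.sV v h1).2
  · rw [(cx.hp.h0l v w h).2]
    exact (cx.sV w h1).2

theorem Ss_C (cx : Cx C g ρ K π κ ε ε2 σ τ ζ θ k k2 K5 L G d P A X Ss t0 c Sp) (b : ℕ)
    (hb : b ∈ Ss) (i : Fin 3) : b ∉ A.C i := by
  have h1 := cx.sC hb
  unfold Pal.C0 at h1
  rw [mem_sdiff, mem_union, mem_union] at h1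
  push Not at h1
  fin_cases i
  · exact h1.2.1.1
  · exact h1.2.1.2
  · exact h1.2.2

theorem Q_C (cx : Cx C g ρ K π κ ε ε2 σ τ ζ θ k k2 K5 L G d P A X Ss t0 c Sp) (b : ℕ)
    (i : Bool) (hb : b ∈ A.Q i) : ∃ j, b ∈ A.C j := by
  cases i
  · exact ⟨0, cx.pal.Q0 hb⟩
  · exact ⟨1, cx.pal.Q1 hb⟩

/-- thin edges at members of `VH` are unchanged and have no special colours -/
theorem mem_VH (cx : Cx C g ρ K π κ ε ε2 σ τ ζ θ k k2 K5 L G d P A X Ss t0 c Sp)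
    (st : PSt τ ζ G d P A X Ss t0 c Bd s t U) (v w : V) (hv : v ∈ X.VH) (hv0 : v ∉ P.V0)
    (h : (thin2 G X P).Adj v w) (hH : ¬ X.H.Adj v w) : t v w ∉ Ss := by
  have h1 : t v w = t0 v w := by
    by_contra hne
    rcases st.ch v w h hH hne with h2 | h2
    · exact hv0 h2.2.1
    · exact h2.2.2.2 hv
  rw [h1]
  exact cx.sh.mem v hv hv0 w (thin_of v w h hH)

theorem fnl_H (v w : V) (h : X.H.Adj v w) : fnl X t v w = X.h0 v := by
  unfold fnl
  rw [if_pos h]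

theorem fnl_n (v w : V) (h : ¬ X.H.Adj v w) : fnl X t v w = t v w := by
  unfold fnl
  rw [if_neg h]

/-- the colour `h0` is free at the ends of `H` -/
theorem h0_free (cx : Cx C g ρ K π κ ε ε2 σ τ ζ θ k k2 K5 L G d P A X Ss t0 c Sp)
    (st : PSt τ ζ G d P A X Ss t0 c Bd s t U) (hgH : gH G P X t) (v w u : V)
    (h : X.H.Adj v w) (h2 : (thin2 G X P).Adj v u) (hH : ¬ X.H.Adj v u) :
    t v u ≠ X.h0 v := by
  intro he
  by_cases hv : v ∈ P.V0
  · have h3 : v ∈ W0 X := by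
      unfold W0
      rw [mem_union]
      exact cx.hp.HS v w h
    apply hgH v h3 hv w h
    rw [mem_Fc2]
    exact ⟨u, h2, he⟩
  · have h3 : v ∈ X.VH := by
      rcases cx.hp.HS v w h with h4 | h4
      · exact h4
      · exact absurd (S0_sub cx v h4) hv
    apply mem_VH cx st v u h3 hv h2 hH
    rw [he]
    exact h0_Ss cx v w h

theorem fin (hEXF : Stmt_EXF.{u}) (hCMP : Stmt_CMP.{u})
    (cx : Cx C g ρ K π κ ε ε2 σ τ ζ θ k k2 K5 L G d P A X Ss t0 c Sp)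
    (st : PSt τ ζ G d P A X Ss t0 c Bd s t U) (hB : Bd.card ≤ 100 * L) (hs : s ≤ 100 * L)
    (hgS : gS G X t) (hgH : gH G P X t) (hgO : gO G P X t)
    (hgP : ∀ n, gP ζ G d P X Ss t n) {e : ℝ} (he : 2 * ε ≤ e) :
    PreP2 e ζ k G d P A X Ss (fnl X t) c (Sp2 P X c) := by
  obtain ⟨c1, c2, c3, c4, c5, c6, c7, c8, c9⟩ :=
    hCMP C g ρ K π κ ε ε2 σ τ ζ θ M k k2 K5 L G d P A X Ss t0 c Sp cx Bd s t U st hB hs
  have hE := hEXF C g ρ K π κ ε ε2 σ τ ζ θ M k k2 K5 L G d P A X Ss t0 c Sp cx Bd s t U st hB hs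
  have hd0 : (0 : ℝ) ≤ d := Nat.cast_nonneg d
  have hSp2 : Sp2 P X c ⊆ Sp := by
    unfold Sp2
    rw [cx.pre.own]
    exact image_subset_image sdiff_subset
  have hed : 2 * ε * d ≤ e * d := mul_le_mul_of_nonneg_right he hd0
  -- colours at `v` of the final colouring
  have hFc : ∀ v b, b ∈ Fc2 G X P (fnl X t) v →
      (∃ w, (thin2 G X P).Adj v w ∧ ¬ X.H.Adj v w ∧ t v w = b) ∨
        ∃ w, X.H.Adj v w ∧ b = X.h0 v := by
    intro v b hb
    rw [mem_Fc2] at hb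
    obtain ⟨w, h1, h2⟩ := hb
    by_cases hH : X.H.Adj v w
    · right
      rw [fnl_H v w hH] at h2
      exact ⟨w, hH, h2.symm⟩
    · left
      rw [fnl_n v w hH] at h2
      exact ⟨w, h1, hH, h2⟩
  have hal : ∀ v, v ∉ P.V0 → ∀ b ∈ Fc2 G X P (fnl X t) v, alc P A v b := by
    intro v hv b hb
    rcases hFc v b hb with ⟨w, h1, h2, h3⟩ | ⟨w, h1, h2⟩
    · apply st.al v hv b
      · rw [mem_Fc2]
        exact ⟨w, h1, h3⟩
      · rw [← h3]
        exact st.lt v w h1 h2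
    · have h3 : b ∈ Ss := by rw [h2]; exact h0_Ss cx v w h1
      unfold alc
      split_ifs
      · exact Ss_C cx b h3 _
      · intro h4
        obtain ⟨j, hj⟩ := Q_C cx b _ h4
        exact Ss_C cx b h3 j hj
  constructor
  · -- sym
    intro v w
    by_cases hH : X.H.Adj v w
    · rw [fnl_H v w hH, fnl_H w v hH.symm]
      exact (cx.hp.h0l v w hH).2
    · rw [fnl_n v w hH, fnl_n w v (fun h => hH h.symm)]
      exact st.ec.sym v w
  · -- lt
    intro v w h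
    by_cases hH : X.H.Adj v w
    · rw [fnl_H v w hH]
      exact (cx.hp.h0l v w hH).1
    · rw [fnl_n v w hH]
      exact st.lt v w h hH
  · -- inj
    intro v w hw w' hw' hww
    rw [mem_coe, mem_nb'] at hw hw'
    by_cases hH : X.H.Adj v w
    · by_cases hH' : X.H.Adj v w'
      · exact cx.hp.Hm v w w' hH hH'
      · simp only [fnl_H v w hH, fnl_n v w' hH'] at hww
        exact absurd hww.symm (h0_free cx st hgH v w w' hH hw' hH')
    · by_cases hH' : X.H.Adj v w'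
      · simp only [fnl_n v w hH, fnl_H v w' hH'] at hww
        exact absurd hww (h0_free cx st hgH v w' w hH' hw hH)
      · simp only [fnl_n v w hH, fnl_n v w' hH'] at hww
        exact st.ec.inj v w w' hw hw' hww
  · -- th
    intro v w h
    exact fnl_H v w h
  · -- own
    rfl
  · -- SC
    exact hSp2.trans cx.pre.SC
  · -- SS
    exact disjoint_of_subset_left hSp2 cx.sh.sS
  · -- oin
    exact cx.pre.oin.mono (by
      intro x hx
      rw [mem_coe, mem_sdiff] at hx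
      exact mem_coe.2 hx.1)
  · -- onb
    intro z hz hzV
    refine ⟨fun hb => ?_, cx.sh.nmc z hz⟩
    rcases hFc z _ hb with ⟨w, h1, h2, h3⟩ | ⟨w, h1, h2⟩
    · apply st.own z hz hzV
      rw [mem_Fc2]
      exact ⟨w, h1, h3⟩
    · have h3 : c z ∈ Sp := by
        rw [cx.pre.own]
        exact mem_image_of_mem c hz
      exact disjoint_left.1 cx.sh.sS h3 (h2 ▸ h0_Ss cx z w h1)
  · -- lig
    intro z hz _
    exact cx.sh.lig z hz
  · -- cVH
    intro v hv hb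
    rcases hFc v _ hb with ⟨w, h1, h2, h3⟩ | ⟨w, h1, h2⟩
    · by_cases hv0 : v ∈ P.V0
      · apply hgO v hv hv0
        rw [mem_Fc2]
        exact ⟨w, h1, h3⟩
      · apply mem_VH cx st v w hv hv0 h1 h2
        rw [h3]
        exact (cx.sV v hv).1
    · exact cx.hp.ch v hv h2
  · -- ne
    intro z hz w hw
    by_cases hH : X.H.Adj z w
    · have h1 : w ∈ X.VH := by
        rcases cx.hp.HH z w hH with h2 | h2
        · exact absurd hz (disjoint_left.1 cx.hp.dj h2)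
        · exact h2
      rw [cx.hp.neV z hz w (Or.inl h1)]
      exact notMem_empty _
    · rw [fnl_n z w hH]
      exact hgS z hz w hw hH
  · -- rN
    intro v hv hty
    rw [disjoint_left]
    intro b hb hbQ
    have h1 := hal v hv b hb
    unfold alc at h1
    rw [if_neg (by rcases hty with h | h <;> rw [h] <;> decide)] at h1
    exact h1 hbQ
  · -- rK
    intro v hv hty
    rw [disjoint_left]
    intro b hb hbC
    have h1 := hal v hv b hb
    unfold alc at h1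
    rw [if_pos hty] at h1
    exact h1 hbC
  · -- load
    intro n b
    refine (c1 n b).trans ?_
    have h1 : 0 ≤ ζ * d := mul_nonneg cx.nu.ζ0.le hd0
    nlinarith [mul_le_mul_of_nonneg_right he h1]
  · exact c2
  · exact c3
  · intro n hn
    exact (c4 n hn).trans hed
  · intro n hn i
    exact (c5 n hn i).trans hed
  · intro n hn i
    exact (c6 n hn i).trans hed
  · intro n hn β
    refine (c7 n hn β).trans ?_
    nlinarith [hed]
  · exact c8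
  · exact c9
  · exact hE
  · -- kp
    intro n hn hcomp ho h2
    left
    obtain ⟨b, hb, hbS, hodd⟩ := hgP n hn hcomp (by
      intro v hv hvV
      unfold pV at hv
      rw [mem_filter] at hv
      have h3 : (⟨v, hv.2⟩ : Ts P n) ∈ oT X P n := by
        unfold oT
        rw [mem_filter]
        exact ⟨mem_univ _, hvV⟩
      rw [ho] at h3
      exact absurd h3 (notMem_empty _)) h2
    refine ⟨b, hb, hbS, ?_⟩
    have h3 : us (Fn2 G X P (fnl X t) n) b = us (Fn2 G X P t n) b := by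
      unfold us
      apply filter_congr
      intro v _
      unfold Fn2
      rw [mem_Fc2, mem_Fc2]
      constructor
      · rintro ⟨w, h4, h5⟩
        by_cases hH : X.H.Adj v.1 w
        · rw [fnl_H v.1 w hH] at h5
          exact absurd (h5 ▸ h0_Ss cx v.1 w hH) hbS
        · rw [fnl_n v.1 w hH] at h5
          exact ⟨w, h4, h5⟩
      · rintro ⟨w, h4, h5⟩
        by_cases hH : X.H.Adj v.1 w
        · rw [st.dm v.1 w hH] at h5
          omega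
        · exact ⟨w, h4, by rw [fnl_n v.1 w hH]; exact h5⟩
    rw [h3]
    exact hodd

end fin

/-- PRE2 from the blocks -/
theorem prx (hE : MP_db9399_dp.Stmt_PREE.{u}) (hSHF : Stmt_SHF.{u}) (hINI : Stmt_INI.{u})
    (hS : Stmt_FIXS.{u}) (hH : Stmt_FIXH.{u}) (hO : Stmt_FIXO.{u}) (hP : Stmt_PAR.{u})
    (hEXF : Stmt_EXF.{u}) (hCMP : Stmt_CMP.{u}) : Stmt_PRE2.{u} := by
  intro C g ρ ρ' K π κ ε σ M k k2 hC hg0 hg1 hρ'0 hρ' hρ1 hK hσ0 hσ1 hπ0 hπσ hκ0 hκσ hε0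
  have hρ0 : 0 < ρ := lt_of_lt_of_le hρ'0 hρ'
  have hk0 : (0 : ℝ) ≤ k := Nat.cast_nonneg k
  have hden : (0 : ℝ) < 1000 * (k + 1) := by positivity
  have hπ' : 1000 * ((k : ℝ) + 1) * π ≤ σ := by
    rw [le_div_iff₀ hden] at hπσ
    linarith
  have hκ' : 1000 * ((k : ℝ) + 1) * κ ≤ σ := by
    rw [le_div_iff₀ hden] at hκσ
    linarith
  have hπ1 : π ≤ σ / 1000 := by nlinarith
  have hκ1 : κ ≤ σ / 1000 := by nlinarith
  have hπ2 : π ≤ 1 / 100 := by linarith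
  have hκ2 : κ ≤ 1 / 100 := by linarith
  obtain ⟨τ0, K5, hτ0, hshf⟩ := hSHF C g ρ π κ M k k2 hC hπ0 hπ2 hκ0 hκ2
  obtain ⟨L, hL⟩ : ∃ L : ℕ, L = M + k + k2 + K5 + 1 := ⟨_, rfl⟩
  have hL1 : 1 ≤ L := by omega
  have hLr : (1 : ℝ) ≤ L := by exact_mod_cast hL1
  have hLp : (0 : ℝ) < 10 ^ 6 * (L : ℝ) ^ 2 := by positivity
  obtain ⟨τ, hτ⟩ : ∃ τ, τ = min τ0 (σ / (10 ^ 6 * (L : ℝ) ^ 2)) := ⟨_, rfl⟩
  have hτ1 : 0 < τ := by rw [hτ]; exact lt_min hτ0 (div_pos hσ0 hLp)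
  have hτ2 : τ ≤ τ0 := by rw [hτ]; exact min_le_left _ _
  have hτ3 : 10 ^ 6 * (L : ℝ) ^ 2 * τ ≤ σ := by
    have h1 : τ ≤ σ / (10 ^ 6 * (L : ℝ) ^ 2) := by rw [hτ]; exact min_le_right _ _
    rw [le_div_iff₀ hLp] at h1
    linarith
  obtain ⟨e, he⟩ : ∃ e, e = min (ε / 2) (τ / 100) := ⟨_, rfl⟩
  have he0 : 0 < e := by rw [he]; exact lt_min (by linarith) (by linarith)
  have he1 : 2 * e ≤ ε := by
    have h1 : e ≤ ε / 2 := by rw [he]; exact min_le_left _ _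
    linarith
  have he2 : 100 * e ≤ τ := by
    have h1 : e ≤ τ / 100 := by rw [he]; exact min_le_right _ _
    linarith
  obtain ⟨ε1, hε1, hε1', hmain⟩ :=
    hE C g ρ ρ' K π κ e M (2 * k) hC hg0 hg1 hρ'0 hρ' hρ1 hK hπ0 hπ2 hκ0 hκ2 he0
  refine ⟨ε1, hε1, hε1', ?_⟩
  intro ε2 hε2 hε2'
  obtain ⟨ζ1, hζ1, hm1⟩ := hmain ε2 hε2 hε2'
  obtain ⟨ζ2, hζ2, hm2⟩ := hshf τ hτ1 hτ2
  refine ⟨min ζ1 (min ζ2 (min 1 (σ / (10 ^ 6 * (L : ℝ) ^ 2)))),
    lt_min hζ1 (lt_min hζ2 (lt_min one_pos (div_pos hσ0 hLp))), ?_⟩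
  intro ζ hζ0 hζ
  have hζa : ζ ≤ ζ1 := hζ.trans (min_le_left _ _)
  have hζb : ζ ≤ ζ2 := hζ.trans ((min_le_right _ _).trans (min_le_left _ _))
  have hζc : 10 ^ 6 * (L : ℝ) ^ 2 * ζ ≤ σ := by
    have h1 : ζ ≤ σ / (10 ^ 6 * (L : ℝ) ^ 2) :=
      hζ.trans ((min_le_right _ _).trans ((min_le_right _ _).trans (min_le_right _ _)))
    rw [le_div_iff₀ hLp] at h1
    linarith
  obtain ⟨θ1, hθ1, hm1⟩ := hm1 ζ hζ0 hζa
  obtain ⟨θ2, hθ2, hm2⟩ := hm2 ζ hζ0 hζb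
  have hζσ : 0 < ζ ^ 2 * σ := mul_pos (pow_pos hζ0 2) hσ0
  refine ⟨min θ1 (min θ2 (ζ ^ 2 * σ / (10 ^ 6 * (L : ℝ) ^ 2))),
    lt_min hθ1 (lt_min hθ2 (div_pos hζσ hLp)), ?_⟩
  intro θ hθ0 hθ
  have hθa : θ ≤ θ1 := hθ.trans (min_le_left _ _)
  have hθb : θ ≤ θ2 := hθ.trans ((min_le_right _ _).trans (min_le_left _ _))
  have hθc : 10 ^ 6 * (L : ℝ) ^ 2 * θ ≤ ζ ^ 2 * σ := by
    have h1 : θ ≤ ζ ^ 2 * σ / (10 ^ 6 * (L : ℝ) ^ 2) :=
      hθ.trans ((min_le_right _ _).trans (min_le_right _ _))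
    rw [le_div_iff₀ hLp] at h1
    linarith
  obtain ⟨d1, hm1⟩ := hm1 θ hθ0 hθa
  obtain ⟨d2, hm2⟩ := hm2 θ hθ0 hθb
  have hprod : 0 < e * θ * ζ ^ 2 * σ * κ := by positivity
  obtain ⟨d3, hd3⟩ := exists_nat_ge (10 ^ 9 * (L : ℝ) ^ 4 / (e * θ * ζ ^ 2 * σ * κ))
  refine ⟨max d1 (max d2 d3), ?_⟩
  intro V _ G d P A X Ss hd hdec hpl hpd hpal hhp hsup hvh hsC hsk hsV
  have hda : d1 ≤ d := (le_max_left _ _).trans hd
  have hdb : d2 ≤ d := ((le_max_left _ _).trans (le_max_right _ _)).trans hd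
  have hdc : d3 ≤ d := ((le_max_right _ _).trans (le_max_right _ _)).trans hd
  have hdc' : 10 ^ 9 * (L : ℝ) ^ 4 ≤ e * θ * ζ ^ 2 * σ * κ * d := by
    have h1 : 10 ^ 9 * (L : ℝ) ^ 4 / (e * θ * ζ ^ 2 * σ * κ) ≤ d :=
      hd3.trans (by exact_mod_cast hdc)
    rw [div_le_iff₀ hprod] at h1
    linarith
  have hH1 : ∀ v, (nb X.H v).card ≤ 1 := by
    intro v
    rw [card_le_one]
    intro w hw w' hw'
    rw [mem_nb'] at hw hw'
    exact hhp.Hm v w w' hw hw'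
  have hH2 : ∑ v, (nb X.H v).card ≤ 2 * k := by
    have h0 : ∑ v, (nb X.H v).card ≤ ∑ v ∈ X.VH ∪ X.S0, 1 := by
      rw [← sum_subset (subset_univ (X.VH ∪ X.S0)) (by
        intro v _ hv
        rw [card_eq_zero, eq_empty_iff_forall_notMem]
        intro w hw
        rw [mem_nb'] at hw
        exact hv (mem_union.2 (hhp.HS v w hw)))]
      exact sum_le_sum (fun v _ => hH1 v)
    rw [sum_const, smul_eq_mul, mul_one] at h0
    have h3 := card_union_le X.VH X.S0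
    have h4 := hhp.VHk
    have h5 := hhp.S0k
    omega
  obtain ⟨t, c, Sp, hpre, he0'⟩ := hm1 G X.H d P A hda hdec hpl hpd hpal hH2
  obtain ⟨t0, c0, Sp0, hpre0, hsh⟩ := hm2 G d P A X Ss e t c Sp hdb hdec hpal hhp hsup hsC hsk
    hpre (fun v w h h' => he0' v w h' h)
  have nu : Nu C g ρ K π κ e ε2 σ τ ζ θ M k k2 K5 L d :=
    { C1 := hC
      g0 := hg0
      g1 := hg1
      ρ0 := hρ0
      ρ1 := hρ1
      K0 := hK
      σ0 := hσ0
      σ1 := hσ1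
      π0 := hπ0
      πσ := hπ1
      κ0 := hκ0
      κσ := hκ1
      κk := by linarith
      τ0 := hτ1
      ε0 := he0
      ετ := he2
      ε1 := hε2'.trans hε1'
      ML := by omega
      kL := by omega
      k2L := by omega
      K5L := by omega
      L1 := hL1
      τL := hτ3
      ζ0 := hζ0
      ζL := hζc
      θ0 := hθ0
      θL := hθc
      dL := hdc' }
  have cx : Cx C g ρ K π κ e ε2 σ τ ζ θ k k2 K5 L G d P A X Ss t0 c0 Sp0 :=
    ⟨nu, hdec, hpd, hpal, hhp, hsup, hvh, hsC, hsk, hsV, hpre0, hsh⟩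
  obtain ⟨st0, hB0⟩ := hINI C g ρ K π κ e ε2 σ τ ζ θ M k k2 K5 L G d P A X Ss t0 c0 Sp0 cx
  obtain ⟨ta, Ua, sa, hsa, sta, ga⟩ := hS C g ρ K π κ e ε2 σ τ ζ θ M k k2 K5 L G d P A X Ss t0 c0
    Sp0 cx _ 0 _ _ st0 (by omega) (by omega)
  obtain ⟨tb, Ub, sb, hsb, stb, gb1, gb2⟩ := hH C g ρ K π κ e ε2 σ τ ζ θ M k k2 K5 L G d P A X Ss
    t0 c0 Sp0 cx _ sa _ _ sta (by omega) (by omega) ga
  obtain ⟨tc, Uc, sc, hsc, stc, gc1, gc2, gc3⟩ := hO C g ρ K π κ e ε2 σ τ ζ θ M k k2 K5 L G d P A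
    X Ss t0 c0 Sp0 cx _ sb _ _ stb (by omega) (by omega) gb1 gb2
  obtain ⟨td, Bd', sd, hsd, hBd', std, gd1, gd2, gd3, gd4⟩ := hP C g ρ K π κ e ε2 σ τ ζ θ M k k2 K5
    L G d P A X Ss t0 c0 Sp0 cx _ sc _ _ stc (by omega) (by omega) gc1 gc2 gc3
  exact ⟨fnl X td, c0, Sp2 P X c0,
    fin hEXF hCMP cx std (by omega) (by omega) gd1 gd2 gd3 gd4 he1⟩

end PRX

end Pool.Agent.Work.MP_db9399_da.helper26
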