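import Pool.Agent.Work.MP_db9399_da.Local
import Pool.Agent.Work.MP_db9399_sl_helper94.VSP

/-!
# MP_db9399, DENSE-ALL: LOCK (helper26), pieces of type K
-/

set_option autoImplicit false

namespace Pool.Agent.Work.MP_db9399_da.helper26

open Finset Classical
open Pool.Agent.Work.MP_db9399_all (nb)
open Pool.Agent.Work.MP_db9399_nc (nn mem_nn mem_nb)
open Pool.Agent.Work.MP_db9399_lt (us wr cell pt mem_us mem_wr mem_pt pt_cell card_V card_parts
  even_degsum even_sum_iff)
open Pool.Agent.Work.MP_db9399_sl.helper94.VSP (Prs exists_prs vcore)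
open Pool.Agent.Work.MP_db9399_da

universe u

namespace LOCK

variable {V : Type u} [Fintype V] {G : SimpleGraph V} {d x y h s z : ℕ} {F A : V → Finset ℕ}
    {p : V → Fin 3} {a : V → Bool} {C : Fin 3 → Finset ℕ} {Z o : Finset V} {c0 : V → ℕ}
    {Z0 R : Finset ℕ}

/-- parity of the number of wrong colours -/
theorem wr_ev (F : V → Finset ℕ) (hF : ∀ v, ∀ b ∈ F v, b < d + 2)
    (hd : ∀ v, (nb G v).card + (F v).card = d + 1) :
    Even ((wr F (range (d + 2))).card + Fintype.card V) := by
  have e1 : ∑ b ∈ range (d + 2), (univ \ us F b).card + ∑ v, (F v).card =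
      Fintype.card V * (d + 2) := by
    have e1 : ∀ b, (univ \ us F b).card = ∑ v : V, if b ∈ F v then 0 else 1 := by
      intro b
      have h1 : univ \ us F b = univ.filter (fun v => ¬ b ∈ F v) := by
        ext v
        simp [mem_us]
      rw [h1, Finset.card_filter]
      refine Finset.sum_congr rfl fun v _ => ?_
      by_cases hb : b ∈ F v <;> simp [hb]
    have e2 : ∀ v, (F v).card = ∑ b ∈ range (d + 2), if b ∈ F v then 1 else 0 := by
      intro v
      rw [← Finset.sum_filter, ← Finset.card_eq_sum_ones]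
      congr 1
      ext b
      simp only [Finset.mem_filter, Finset.mem_range]
      exact ⟨fun hb => ⟨hF v b hb, hb⟩, fun hb => hb.2⟩
    have e3 : ∑ b ∈ range (d + 2), (univ \ us F b).card =
        ∑ v : V, ∑ b ∈ range (d + 2), if b ∈ F v then 0 else 1 := by
      rw [Finset.sum_comm]
      exact Finset.sum_congr rfl fun b _ => e1 b
    rw [e3, ← Finset.sum_add_distrib]
    have e4 : ∀ v ∈ (univ : Finset V),
        (∑ b ∈ range (d + 2), if b ∈ F v then 0 else 1) + (F v).card = d + 2 := by
      intro v _
      rw [e2 v, ← Finset.sum_add_distrib]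
      have : ∀ b ∈ range (d + 2),
          ((if b ∈ F v then 0 else 1) + if b ∈ F v then 1 else 0) = 1 := by
        intro b _
        by_cases hb : b ∈ F v <;> simp [hb]
      rw [Finset.sum_congr rfl this]
      simp
    rw [Finset.sum_congr rfl e4, Finset.sum_const, smul_eq_mul, card_univ]
  have e2 := even_degsum G
  have e3 : ∑ v, (nb G v).card + ∑ v, (F v).card = Fintype.card V * (d + 1) := by
    rw [← Finset.sum_add_distrib, Finset.sum_congr rfl fun v _ => hd v, Finset.sum_const,
      smul_eq_mul, Finset.card_univ]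
  have e4 : ∑ b ∈ range (d + 2), (univ \ us F b).card = ∑ v, (nb G v).card + Fintype.card V := by
    have : Fintype.card V * (d + 2) = Fintype.card V * (d + 1) + Fintype.card V := by ring
    omega
  have e5 := even_sum_iff (range (d + 2)) (fun b => (univ \ us F b).card)
  rw [e4] at e5
  have e6 : wr F (range (d + 2)) = (range (d + 2)).filter (fun b => Odd (univ \ us F b).card) :=
    rfl
  rw [e6]
  rw [Nat.even_add] at e5 ⊢
  tauto

theorem c6 (H : LK G d x y h s z F A p a C Z o c0 Z0 R) :
    Fintype.card V ≤ 6 * s ∧ 6 * s ≤ Fintype.card V + 6 * x ∧ ∀ i, (pt p i).card ≤ 2 * s := by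
  have h1 : ∀ i, (pt p i).card ≤ 2 * s ∧ 2 * s ≤ (pt p i).card + 2 * x := by
    intro i
    have h1 := H.cs i true
    have h2 := H.cs i false
    rw [pt_cell p a i]; omega
  have h2 := h1 0
  have h3 := h1 1
  have h4 := h1 2
  have h5 := card_parts p
  exact ⟨by omega, by omega, fun i => (h1 i).1⟩

theorem Fx (H : LK G d x y h s z F A p a C Z o c0 Z0 R) (v : V) : (F v).card + 1 ≤ x := by
  by_cases hv : v ∈ o
  · exact H.Fo v hv
  · have h1 := card_le_card (H.FA v hv)
    have h2 := H.Ax v hv
    omega

/-- own colours outside `o`, colours of `K`, most of them outside `C (p v)` -/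
structure OC (G : SimpleGraph V) (A : V → Finset ℕ) (p : V → Fin 3) (C : Fin 3 → Finset ℕ)
    (o : Finset V) (c0 : V → ℕ) (K : Finset ℕ) (n : ℕ) (c : V → ℕ) : Prop where
  co : ∀ v ∈ o, c v = c0 v
  cK : ∀ v, v ∉ o → c v ∈ K ∧ c v ∉ A v
  pr : ∀ v, v ∉ o → ∀ w, w ∉ o → G.Adj v w → c v ≠ c w
  cl : ∀ b, ((univ \ o).filter (fun v => c v = b)).card ≤ 2
  av : ((univ \ o).filter (fun v => c v ∈ C (p v))).card ≤ n

theorem fin (hL : MP_db9399_ot.Stmt_LTZ.{u}) (H : LK G d x y h s z F A p a C Z o c0 Z0 R)
    {K : Finset ℕ} {c : V → ℕ} (hK : K ⊆ range (d + 2)) (hK0 : ∀ v ∈ o, c0 v ∉ K)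
    (hO : OC G A p C o c0 K (3 * x) c)
    (hp : (wr (fun v => insert (c v) (F v)) (range (d + 2))).card ≤ Fintype.card V + 1) :
    ∃ (c : V → ℕ) (t : V → V → ℕ), (∀ v, c v < d + 2) ∧ (∀ v, v ∉ o → c v ∉ A v) ∧
      (∀ v ∈ o, c v = c0 v) ∧ (∀ v w, G.Adj v w → c v ≠ c w) ∧
      (∀ v ∈ o, ∀ w, w ≠ v → c w ≠ c v) ∧
      (∀ b, (univ.filter (fun v => c v = b)).card ≤ 2) ∧
      PEF G d (fun v => insert (c v) (F v)) t := by
  have hlt : ∀ v, c v < d + 2 := by
    intro v
    by_cases hv : v ∈ o
    · rw [hO.co v hv]; exact (H.oc v hv).1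
    · exact mem_range.mp (hK (hO.cK v hv).1)
  have hcF : ∀ v, c v ∉ F v := by
    intro v
    by_cases hv : v ∈ o
    · rw [hO.co v hv]; exact (H.oc v hv).2
    · exact fun h' => (hO.cK v hv).2 (H.FA v hv h')
  have hoo : ∀ v ∈ o, ∀ w, w ≠ v → c w ≠ c v := by
    intro v hv w hwv he
    by_cases hw : w ∈ o
    · rw [hO.co v hv, hO.co w hw] at he
      exact hwv (H.oi hw hv he)
    · rw [hO.co v hv] at he
      exact hK0 v hv (he ▸ (hO.cK w hw).1)
  have h2 : ∀ b, (univ.filter (fun v => c v = b)).card ≤ 2 := by
    intro b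
    by_cases hb : ∃ v ∈ o, c v = b
    · obtain ⟨v, hv, hvb⟩ := hb
      have : univ.filter (fun v => c v = b) ⊆ {v} := by
        intro w hw
        rw [mem_filter] at hw
        rw [mem_singleton]
        by_contra hne
        exact hoo v hv w hne (hw.2.trans hvb.symm)
      exact (card_le_card this).trans (by simp)
    · push Not at hb
      have : univ.filter (fun v => c v = b) ⊆ (univ \ o).filter (fun v => c v = b) := by
        intro w hw
        rw [mem_filter] at hw
        rw [mem_filter, mem_sdiff]
        exact ⟨⟨mem_univ _, fun h' => hb w h' hw.2⟩, hw.2⟩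
      exact (card_le_card this).trans (hO.cl b)
  have hd1 : ∀ v, (nb G v).card + (insert (c v) (F v)).card = d + 1 := by
    intro v
    rw [card_insert_of_notMem (hcF v)]
    have := H.deg v
    omega
  have hev := wr_ev (G := G) (d := d) (fun v => insert (c v) (F v))
    (by
      intro v b hb
      rcases mem_insert.mp hb with rfl | hb
      · exact hlt v
      · exact H.Flt v b hb) hd1
  have hp2 : (wr (fun v => insert (c v) (F v)) (range (d + 2))).card ≤ Fintype.card V := by
    rcases Nat.lt_or_ge (Fintype.card V)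
      (wr (fun v => insert (c v) (F v)) (range (d + 2))).card with h1 | h1
    · have h3 : (wr (fun v => insert (c v) (F v)) (range (d + 2))).card = Fintype.card V + 1 := by
        omega
      rw [h3] at hev
      obtain ⟨k, hk⟩ := hev
      omega
    · exact h1
  have hF1 := Fx H
  obtain ⟨t, ht1, ht2, ht3⟩ := hL G d (4 * x) y h s (fun v => insert (c v) (F v)) p a C
    (Z ∪ (univ \ o).filter (fun v => c v ∈ C (p v)))
    { x1 := by have := H.x1; omega
      xd := by
        have := H.xd
        norm_num at this ⊢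
        omega
      yh := H.yh
      hd := H.hd
      dh := H.dh
      Zx := by
        have h3 := card_union_le Z ((univ \ o).filter (fun v => c v ∈ C (p v)))
        have h4 := H.Zx
        have h5 := hO.av
        omega
      deg := hd1
      inn := fun v => by have := H.inn v; omega
      Fx := fun v => by
        have h3 := card_insert_le (c v) (F v)
        have h4 := hF1 v
        omega
      Flt := by
        intro v b hb
        rcases mem_insert.mp hb with rfl | hb
        · exact hlt v
        · exact H.Flt v b hb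
      load := by
        intro b
        have h3 : us (fun v => insert (c v) (F v)) b ⊆ us F b ∪ univ.filter (fun v => c v = b) := by
          intro v hv
          rw [mem_us, mem_insert] at hv
          rw [mem_union, mem_us, mem_filter]
          rcases hv with hv | hv
          · right; exact ⟨mem_univ _, hv.symm⟩
          · left; exact hv
        have h4 := card_le_card h3
        have h5 := card_union_le (us F b) (univ.filter (fun v => c v = b))
        have h6 := h2 b
        have h7 := H.load b
        have h8 := card_le_card (sdiff_subset (s := us (fun v => insert (c v) (F v)) b)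
          (t := Z ∪ (univ \ o).filter (fun v => c v ∈ C (p v))))
        omega
      par := hp2
      cs := fun i l => by
        have := H.cs i l
        omega
      Clt := H.Clt
      Cdis := H.Cdis
      Ccard := H.Ccard
      CF := by
        intro v hv
        rw [mem_union, not_or, mem_filter, mem_sdiff] at hv
        rw [disjoint_insert_left]
        refine ⟨fun h' => hv.2 ⟨⟨mem_univ _, fun h'' => hv.1 (H.oZ h'')⟩, h'⟩, H.CF v hv.1⟩ }
  exact ⟨c, t, hlt, fun v hv => (hO.cK v hv).2, hO.co, fun v w hvw => by
    by_cases hv : v ∈ o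
    · exact fun he => hoo v hv w hvw.ne' he.symm
    · by_cases hw : w ∈ o
      · exact fun he => hoo w hw v hvw.ne he
      · exact hO.pr v hv w hw hvw, hoo, h2, ht1, ht2, ht3⟩

theorem cV (H : LK G d x y h s z F A p a C Z o c0 Z0 R) [Nonempty V] :
    d + 2 ≤ Fintype.card V + x ∧ d ≤ 2 * Fintype.card V ∧ 10 ^ 10 * x ≤ d ∧
      4 * s + 2 * x + 2 * x + x + 4 ≤ Fintype.card V ∧ 8 * x ≤ s := by
  obtain ⟨v⟩ := ‹Nonempty V›
  have h1 := card_V G v
  have h2 := H.deg v
  have h3 := Fx H v
  have h4 := H.xd
  have h5 := c6 H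
  have h6 := H.x1
  norm_num at h4 ⊢
  refine ⟨by omega, by omega, by omega, by omega, by omega⟩

/-- a colour outside `Z0`, `R` is allowed at many vertices -/
theorem cnt (H : LK G d x y h s z F A p a C Z o c0 Z0 R) (X : Finset V) (hX : o ⊆ X) {b : ℕ}
    (hb : b < d + 2) (hb0 : b ∉ Z0) (hbR : b ∉ R) :
    (univ \ X).card ≤ ((univ \ X).filter (fun v => b ∉ A v ∪ C (p v))).card + x + 2 * s := by
  have h1 : ∃ i, ∀ v, b ∈ C (p v) → v ∈ pt p i := by
    by_cases h' : ∃ i, b ∈ C i
    · obtain ⟨i, hi⟩ := h'
      refine ⟨i, fun v hv => ?_⟩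
      rw [mem_pt]
      by_contra hne
      exact disjoint_left.mp (H.Cdis _ _ hne) hv hi
    · exact ⟨0, fun v hv => absurd ⟨_, hv⟩ h'⟩
  obtain ⟨i, hi⟩ := h1
  have h2 : univ \ X ⊆ ((univ \ X).filter (fun v => b ∉ A v ∪ C (p v))) ∪
      ((us A b \ o) ∪ pt p i) := by
    intro v hv
    rw [mem_union]
    by_cases h' : b ∈ A v ∪ C (p v)
    · right
      rw [mem_union] at h' ⊢
      rcases h' with h' | h'
      · left
        rw [mem_sdiff, mem_us]
        exact ⟨h', fun h'' => (mem_sdiff.mp hv).2 (hX h'')⟩
      · right; exact hi v h'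
    · left
      exact mem_filter.mpr ⟨hv, h'⟩
  have h3 := card_le_card h2
  have h4 := card_union_le ((univ \ X).filter (fun v => b ∉ A v ∪ C (p v)))
    ((us A b \ o) ∪ pt p i)
  have h5 := card_union_le (us A b \ o) (pt p i)
  have h6 := H.gA b hb hb0 hbR
  have h7 := (c6 H).2.2 i
  omega

theorem lst (H : LK G d x y h s z F A p a C Z o c0 Z0 R) {v : V} (hv : v ∉ o) :
    (A v ∪ C (p v)).card ≤ x + 2 * s := by
  have h1 := card_union_le (A v) (C (p v))
  have h2 := H.Ax v hv
  have h3 := H.Ccard (p v)
  omega

/-- few pairs -/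
theorem core1 (H : LK G d x y h s z F A p a C Z o c0 Z0 R) [Nonempty V] {K : Finset ℕ}
    (hK : K ⊆ range (d + 2)) (hKR : Disjoint K R) {P : Finset V} {f : V → V}
    (hP : Prs G (univ \ o) P f) (hc : (univ \ o).card = K.card + P.card)
    (hz : Z0.card + 2 * P.card ≤ z) (hx : P.card ≤ x) :
    ∃ c : V → ℕ, OC G A p C o c0 K (3 * x) c ∧
      ∀ b ∈ K, b ∉ P.image c → ((univ \ o).filter (fun v => c v = b)).card = 1 := by
  have hcV := cV H
  have ho := H.o2
  have hS : (univ \ o).card + o.card = Fintype.card V := by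
    rw [← card_univ]
    exact card_sdiff_add_card_eq_card (subset_univ o)
  obtain ⟨c, h1, h2, h3, h4, h5⟩ := vcore G (univ \ o) K Z0 A (fun v => C (p v)) P f
    (x + 2 * s) hP hc (fun v hv => lst H (mem_sdiff.mp hv).2)
    (fun v hv => by
      have := H.Ax v (mem_sdiff.mp hv).2
      omega)
    (fun b hb hb0 => by
      have h1 := cnt H o (Subset.refl _) (mem_range.mp (hK hb)) hb0
        (disjoint_left.mp hKR hb)
      omega)
    (fun b hb hb0 => by
      have h1 := H.Ze b hb0
      have h2 : (univ.filter (fun v => b ∉ A v ∧ v ∉ o)) =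
          (univ \ o).filter (fun v => b ∉ A v) := by
        ext v
        simp only [mem_filter, mem_sdiff, mem_univ, true_and]
        tauto
      rw [h2] at h1
      omega)
  have hco : ∀ v, v ∉ o → (if v ∈ o then c0 v else c v) = c v := fun v hv => if_neg hv
  have hmo : ∀ v, v ∉ o → v ∈ univ \ o := fun v hv => mem_sdiff.mpr ⟨mem_univ _, hv⟩
  have hfe : ∀ b, (univ \ o).filter (fun v => (if v ∈ o then c0 v else c v) = b) =
      (univ \ o).filter (fun v => c v = b) := by
    intro b
    apply filter_congr
    intro v hv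
    rw [hco v (mem_sdiff.mp hv).2]
  refine ⟨fun v => if v ∈ o then c0 v else c v, ⟨?_, ?_, ?_, ?_, ?_⟩, ?_⟩
  · intro v hv
    exact if_pos hv
  · intro v hv
    rw [hco v hv]
    exact h1 v (hmo v hv)
  · intro v hv w hw hvw
    rw [hco v hv, hco w hw]
    exact h2 v (hmo v hv) w (hmo w hw) hvw
  · intro b
    rw [hfe b]
    exact h3 b
  · have h6 : (univ \ o).filter (fun v => (if v ∈ o then c0 v else c v) ∈ C (p v)) =
        (univ \ o).filter (fun v => c v ∈ C (p v)) := by
      apply filter_congr
      intro v hv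
      rw [hco v (mem_sdiff.mp hv).2]
    rw [h6]
    have h7 := H.Zc
    omega
  · intro b hb hbP
    rw [hfe b]
    apply h4 b hb
    intro h6
    apply hbP
    obtain ⟨v, hv, rfl⟩ := mem_image.mp h6
    exact mem_image.mpr ⟨v, hv, hco v (mem_sdiff.mp (hP.sub hv)).2⟩

/-- many pairs: first the colours of `Z0` -/
theorem core2 (H : LK G d x y h s z F A p a C Z o c0 Z0 R) [Nonempty V] {K : Finset ℕ}
    (hK : K ⊆ range (d + 2)) (hKR : Disjoint K R) {q : ℕ}
    (hc : (univ \ o).card = K.card + q) (hx : q ≤ x)
    (hpr : ∀ X : Finset V, o ⊆ X → X.card ≤ Z0.card + 2 →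
      ∃ (P : Finset V) (f : V → V), Prs G (univ \ X) P f ∧ P.card = q) :
    ∃ c : V → ℕ, OC G A p C o c0 K (3 * x) c := by
  have hcV := cV H
  have ho := H.o2
  have hZc := H.Zc
  have hS : (univ \ o).card + o.card = Fintype.card V := by
    rw [← card_univ]
    exact card_sdiff_add_card_eq_card (subset_univ o)
  -- representatives of the colours of `Z0 ∩ K`
  obtain ⟨r, hr1, hr2⟩ : ∃ r : {b // b ∈ Z0 ∩ K} → V, Function.Injective r ∧
      ∀ b, r b ∈ univ.filter (fun v => b.val ∉ A v ∧ v ∉ o) := by
    apply (Finset.all_card_le_biUnion_card_iff_exists_injective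
      (fun b : {b // b ∈ Z0 ∩ K} => univ.filter (fun v => b.val ∉ A v ∧ v ∉ o))).mp
    intro S
    rcases S.eq_empty_or_nonempty with hS | ⟨b0, hb0⟩
    · subst hS; simp
    · have e1 : (univ.filter (fun v => b0.val ∉ A v ∧ v ∉ o)).card ≤
          (S.biUnion (fun b => univ.filter (fun v => b.val ∉ A v ∧ v ∉ o))).card :=
        card_le_card (subset_biUnion_of_mem
          (fun b : {b // b ∈ Z0 ∩ K} => univ.filter (fun v => b.val ∉ A v ∧ v ∉ o)) hb0)
      have e2 := H.Ze b0.val (mem_inter.mp b0.2).1
      have e3 : S.card ≤ Z0.card := by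
        have e4 : (S.image (fun b : {b // b ∈ Z0 ∩ K} => b.val)).card = S.card :=
          card_image_of_injective _ Subtype.val_injective
        rw [← e4]
        apply card_le_card
        intro b hb
        obtain ⟨b', _, rfl⟩ := mem_image.mp hb
        exact (mem_inter.mp b'.2).1
      have e5 := H.Zz
      omega
  obtain ⟨I, hI⟩ : ∃ I : Finset V, I = univ.image r := ⟨_, rfl⟩
  have hIc : I.card = (Z0 ∩ K).card := by
    rw [hI, card_image_of_injective _ hr1, card_univ, Fintype.card_coe]
  have hIo : ∀ v ∈ I, v ∉ o := by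
    intro v hv
    rw [hI] at hv
    obtain ⟨b, _, rfl⟩ := mem_image.mp hv
    exact (mem_filter.mp (hr2 b)).2.2
  have hdo : Disjoint o I := by
    rw [disjoint_left]
    exact fun v hv hv' => hIo v hv' hv
  have hIZ : (Z0 ∩ K).card ≤ Z0.card := card_le_card inter_subset_left
  have hXc : (o ∪ I).card = o.card + I.card := card_union_of_disjoint hdo
  obtain ⟨P, f, hP, hPc⟩ := hpr (o ∪ I) subset_union_left (by omega)
  have hSX : (univ \ (o ∪ I)).card + (o ∪ I).card = Fintype.card V := by
    rw [← card_univ]
    exact card_sdiff_add_card_eq_card (subset_univ _)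
  have hKc : (K \ Z0).card + (Z0 ∩ K).card = K.card := by
    rw [inter_comm]
    exact card_sdiff_add_card_inter K Z0
  obtain ⟨c, h1, h2, h3, -, h5⟩ := vcore G (univ \ (o ∪ I)) (K \ Z0) ∅ A (fun v => C (p v)) P f
    (x + 2 * s) hP (by omega)
    (fun v hv => lst H (fun h' => (mem_sdiff.mp hv).2 (mem_union_left _ h')))
    (fun v hv => by
      have := H.Ax v (fun h' => (mem_sdiff.mp hv).2 (mem_union_left _ h'))
      omega)
    (fun b hb _ => by
      rw [mem_sdiff] at hb
      have h1 := cnt H (o ∪ I) subset_union_left (mem_range.mp (hK hb.1)) hb.2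
        (disjoint_left.mp hKR hb.1)
      omega)
    (fun b hb hb0 => absurd hb0 (notMem_empty b))
  -- the colour of the representatives
  obtain ⟨g, hg⟩ : ∃ g : V → ℕ, ∀ b : {b // b ∈ Z0 ∩ K}, g (r b) = b.val := by
    refine ⟨fun v => if h' : ∃ b, r b = v then h'.choose.val else 0, fun b => ?_⟩
    have h' : ∃ b', r b' = r b := ⟨b, rfl⟩
    simp only [dif_pos h']
    rw [hr1 h'.choose_spec]
  have hgI : ∀ v ∈ I, g v ∈ Z0 ∩ K ∧ g v ∉ A v := by
    intro v hv
    rw [hI] at hv
    obtain ⟨b, _, rfl⟩ := mem_image.mp hv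
    rw [hg b]
    exact ⟨b.2, (mem_filter.mp (hr2 b)).2.1⟩
  have hgi : ∀ v ∈ I, ∀ w ∈ I, g v = g w → v = w := by
    intro v hv w hw he
    rw [hI] at hv hw
    obtain ⟨b, _, rfl⟩ := mem_image.mp hv
    obtain ⟨b', _, rfl⟩ := mem_image.mp hw
    rw [hg b, hg b'] at he
    rw [Subtype.ext he]
  obtain ⟨cc, hcc⟩ : ∃ cc : V → ℕ, ∀ v, cc v = if v ∈ o then c0 v else if v ∈ I then g v else c v :=
    ⟨_, fun _ => rfl⟩
  have hc1 : ∀ v ∈ o, cc v = c0 v := fun v hv => by rw [hcc, if_pos hv]
  have hc2 : ∀ v ∈ I, cc v = g v := fun v hv => by rw [hcc, if_neg (hIo v hv), if_pos hv]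
  have hc3 : ∀ v, v ∉ o → v ∉ I → cc v = c v := fun v hv hv' => by
    rw [hcc, if_neg hv, if_neg hv']
  have hmX : ∀ v, v ∉ o → v ∉ I → v ∈ univ \ (o ∪ I) := fun v hv hv' => by
    rw [mem_sdiff, mem_union, not_or]
    exact ⟨mem_univ _, hv, hv'⟩
  refine ⟨cc, hc1, ?_, ?_, ?_, ?_⟩
  · intro v hv
    by_cases hvI : v ∈ I
    · rw [hc2 v hvI]
      exact ⟨(mem_inter.mp (hgI v hvI).1).2, (hgI v hvI).2⟩
    · rw [hc3 v hv hvI]
      have h6 := h1 v (hmX v hv hvI)
      exact ⟨(mem_sdiff.mp h6.1).1, h6.2⟩
  · intro v hv w hw hvw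
    by_cases hvI : v ∈ I <;> by_cases hwI : w ∈ I
    · rw [hc2 v hvI, hc2 w hwI]
      exact fun he => hvw.ne (hgi v hvI w hwI he)
    · rw [hc2 v hvI, hc3 w hw hwI]
      intro he
      have h6 := (h1 w (hmX w hw hwI)).1
      rw [← he] at h6
      exact (mem_sdiff.mp h6).2 (mem_inter.mp (hgI v hvI).1).1
    · rw [hc3 v hv hvI, hc2 w hwI]
      intro he
      have h6 := (h1 v (hmX v hv hvI)).1
      rw [he] at h6
      exact (mem_sdiff.mp h6).2 (mem_inter.mp (hgI w hwI).1).1
    · rw [hc3 v hv hvI, hc3 w hw hwI]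
      exact h2 v (hmX v hv hvI) w (hmX w hw hwI) hvw
  · intro b
    by_cases hb : b ∈ Z0
    · have h6 : (univ \ o).filter (fun v => cc v = b) ⊆ I.filter (fun v => g v = b) := by
        intro v hv
        rw [mem_filter] at hv
        have hvo := (mem_sdiff.mp hv.1).2
        by_cases hvI : v ∈ I
        · exact mem_filter.mpr ⟨hvI, (hc2 v hvI) ▸ hv.2⟩
        · exfalso
          have h6 := (h1 v (hmX v hvo hvI)).1
          rw [← hc3 v hvo hvI, hv.2] at h6
          exact (mem_sdiff.mp h6).2 hb
      have h7 : (I.filter (fun v => g v = b)).card ≤ 1 := by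
        rw [card_le_one]
        intro v hv w hw
        rw [mem_filter] at hv hw
        exact hgi v hv.1 w hw.1 (hv.2.trans hw.2.symm)
      exact (card_le_card h6).trans (by omega)
    · have h6 : (univ \ o).filter (fun v => cc v = b) ⊆
          (univ \ (o ∪ I)).filter (fun v => c v = b) := by
        intro v hv
        rw [mem_filter] at hv
        have hvo := (mem_sdiff.mp hv.1).2
        by_cases hvI : v ∈ I
        · exfalso
          have h6 := (hgI v hvI).1
          rw [← hc2 v hvI, hv.2] at h6
          exact hb (mem_inter.mp h6).1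
        · exact mem_filter.mpr ⟨hmX v hvo hvI, (hc3 v hvo hvI) ▸ hv.2⟩
      exact (card_le_card h6).trans (h3 b)
  · have h6 : (univ \ o).filter (fun v => cc v ∈ C (p v)) ⊆
        (univ \ (o ∪ I)).filter (fun v => c v ∈ C (p v)) := by
      intro v hv
      rw [mem_filter] at hv
      have hvo := (mem_sdiff.mp hv.1).2
      by_cases hvI : v ∈ I
      · exfalso
        have h6 := (hgI v hvI).1
        rw [hc2 v hvI] at hv
        exact disjoint_left.mp (H.ZC (p v)) (mem_inter.mp h6).1 hv.2
      · exact mem_filter.mpr ⟨hmX v hvo hvI, (hc3 v hvo hvI) ▸ hv.2⟩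
    have h7 := card_le_card h6
    rw [card_empty] at h5
    omega

/-- nonadjacent pairs outside `X` -/
theorem prs (H : LK G d x y h s z F A p a C Z o c0 Z0 R) [Nonempty V] {q : ℕ}
    (hq : Fintype.card V + R.card = d + 2 + q) :
    q + 1 ≤ x ∧ ∀ X : Finset V, X.card ≤ 2 * (q + 1) →
      ∃ (P : Finset V) (f : V → V), Prs G (univ \ X) P f ∧ P.card = q := by
  have hcV := cV H
  have hRF := H.RF
  have hzV := H.zV
  have hnn : ∀ v, ¬ (F v).card < R.card → q + 1 ≤ (nn G univ v).card := by
    intro v hv
    have h1 := card_V G v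
    have h2 := H.deg v
    omega
  have hqx : q + 1 ≤ x := by
    have h1 : ∃ v, v ∉ univ.filter (fun v => (F v).card < R.card) := by
      by_contra hcon
      push Not at hcon
      have h2 : (univ.filter (fun v => (F v).card < R.card)) = univ :=
        eq_univ_iff_forall.mpr hcon
      rw [h2, card_univ] at hRF
      omega
    obtain ⟨v, hv⟩ := h1
    have h2 := hnn v (fun h' => hv (mem_filter.mpr ⟨mem_univ _, h'⟩))
    have h3 := H.inn v
    omega
  refine ⟨hqx, fun X hX => ?_⟩
  apply exists_prs G (univ \ X) x H.x1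
  · intro v _
    refine (card_le_card ?_).trans (H.inn v)
    intro w hw
    rw [mem_nn] at hw ⊢
    exact ⟨mem_univ _, hw.2⟩
  · have e1 : ∀ v ∈ univ \ X, (nn G univ v).card ≤
        (nn G (univ \ X) v).card + (nn G univ v ∩ X).card := by
      intro v _
      have h1 : nn G univ v ⊆ nn G (univ \ X) v ∪ (nn G univ v ∩ X) := by
        intro w hw
        rw [mem_union, mem_inter]
        by_cases h' : w ∈ X
        · right; exact ⟨hw, h'⟩
        · left
          rw [mem_nn] at hw ⊢
          exact ⟨mem_sdiff.mpr ⟨mem_univ _, h'⟩, hw.2⟩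
      exact (card_le_card h1).trans (card_union_le _ _)
    have e2 : ∑ v ∈ univ \ X, (nn G univ v).card ≤
        ∑ v ∈ univ \ X, (nn G (univ \ X) v).card + ∑ v ∈ univ \ X, (nn G univ v ∩ X).card := by
      rw [← sum_add_distrib]
      exact sum_le_sum e1
    have e3 : ∑ v ∈ univ \ X, (nn G univ v ∩ X).card ≤ X.card * x := by
      have h1 : ∀ v : V, (nn G univ v ∩ X).card = ∑ w ∈ X, if w ∈ nn G univ v then 1 else 0 := by
        intro v
        rw [inter_comm, ← filter_mem_eq_inter, card_filter]
      have h2 : ∀ w ∈ X, (∑ v ∈ univ \ X, if w ∈ nn G univ v then 1 else 0) ≤ x := by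
        intro w hw
        rw [← card_filter]
        refine (card_le_card ?_).trans (H.inn w)
        intro v hv
        rw [mem_filter, mem_nn] at hv
        rw [mem_nn]
        exact ⟨mem_univ _, fun h => hv.2.2.1 h.symm, fun h => hv.2.2.2 h.symm⟩
      simp only [h1]
      rw [sum_comm]
      calc ∑ w ∈ X, ∑ v ∈ univ \ X, (if w ∈ nn G univ v then 1 else 0) ≤ ∑ _w ∈ X, x :=
            sum_le_sum h2
        _ = X.card * x := by rw [sum_const, smul_eq_mul]
    have e4 : ((univ \ X) \ univ.filter (fun v => (F v).card < R.card)).card * (q + 1) ≤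
        ∑ v ∈ univ \ X, (nn G univ v).card := by
      calc ((univ \ X) \ univ.filter (fun v => (F v).card < R.card)).card * (q + 1)
          = ∑ _v ∈ (univ \ X) \ univ.filter (fun v => (F v).card < R.card), (q + 1) := by
            rw [sum_const, smul_eq_mul]
        _ ≤ ∑ v ∈ (univ \ X) \ univ.filter (fun v => (F v).card < R.card),
            (nn G univ v).card := by
            apply sum_le_sum
            intro v hv
            apply hnn v
            intro h'
            exact (mem_sdiff.mp hv).2 (mem_filter.mpr ⟨mem_univ _, h'⟩)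
        _ ≤ _ := sum_le_sum_of_subset sdiff_subset
    have e5 : Fintype.card V ≤
        ((univ \ X) \ univ.filter (fun v => (F v).card < R.card)).card + X.card + 4 * z := by
      have h1 : (univ : Finset V) ⊆
          ((univ \ X) \ univ.filter (fun v => (F v).card < R.card)) ∪
            (X ∪ univ.filter (fun v => (F v).card < R.card)) := by
        intro v _
        simp only [mem_union, mem_sdiff, mem_filter, mem_univ, true_and]
        tauto
      have h2 := card_le_card h1
      have h3 := card_union_le ((univ \ X) \ univ.filter (fun v => (F v).card < R.card))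
            (X ∪ univ.filter (fun v => (F v).card < R.card))
      have h4 := card_union_le X (univ.filter (fun v => (F v).card < R.card))
      rw [card_univ] at h2
      omega
    obtain ⟨T, hT⟩ : ∃ T : ℕ, T =
      ((univ \ X) \ univ.filter (fun v => (F v).card < R.card)).card := ⟨_, rfl⟩
    rw [← hT] at e4 e5
    have e6 : 6 * x ≤ T := by omega
    have e7 : 6 * x * (q + 1) ≤ T * (q + 1) := Nat.mul_le_mul_right _ e6
    have e8 : X.card * x ≤ 2 * (q + 1) * x := Nat.mul_le_mul_right _ hX
    have e9 : 4 * x * q + 2 * (q + 1) * x ≤ 6 * x * (q + 1) := by ring_nf; omega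
    omega

/-- wrong colours -/
theorem wr_iff {c : V → ℕ} (hcF : ∀ v, c v ∉ F v) (b : ℕ) :
    Odd (univ \ us (fun v => insert (c v) (F v)) b).card ↔
      (Even (Fintype.card V - (us F b).card) ↔
        Odd (univ.filter (fun v => c v = b)).card) := by
  have h1 : us (fun v => insert (c v) (F v)) b = us F b ∪ univ.filter (fun v => c v = b) := by
    ext v
    rw [mem_us, mem_insert, mem_union, mem_us, mem_filter]
    constructor
    · rintro (h' | h')
      · exact Or.inr ⟨mem_univ _, h'.symm⟩
      · exact Or.inl h'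
    · rintro (h' | h')
      · exact Or.inr h'
      · exact Or.inl h'.2.symm
  have h2 : Disjoint (us F b) (univ.filter (fun v => c v = b)) := by
    rw [disjoint_left]
    intro v hv hv'
    rw [mem_us] at hv
    exact hcF v ((mem_filter.mp hv').2 ▸ hv)
  have h3 : (univ \ us (fun v => insert (c v) (F v)) b).card +
      ((us F b).card + (univ.filter (fun v => c v = b)).card) = Fintype.card V := by
    rw [h1, ← card_union_of_disjoint h2, ← card_univ]
    exact card_sdiff_add_card_eq_card (subset_univ _)
  have h4 : Fintype.card V - (us F b).card =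
      (univ \ us (fun v => insert (c v) (F v)) b).card +
        (univ.filter (fun v => c v = b)).card := by omega
  rw [h4, Nat.even_add, ← Nat.not_even_iff_odd, ← Nat.not_even_iff_odd]
  tauto

theorem cF (H : LK G d x y h s z F A p a C Z o c0 Z0 R) {K : Finset ℕ} {c : V → ℕ} {n : ℕ}
    (hO : OC G A p C o c0 K n c) (v : V) : c v ∉ F v := by
  by_cases hv : v ∈ o
  · rw [hO.co v hv]; exact (H.oc v hv).2
  · exact fun h' => (hO.cK v hv).2 (H.FA v hv h')

theorem usd (H : LK G d x y h s z F A p a C Z o c0 Z0 R) {K : Finset ℕ} {c : V → ℕ} {n : ℕ}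
    (hK0 : ∀ v ∈ o, c0 v ∉ K) (hO : OC G A p C o c0 K n c)
    (h1 : ∀ b ∈ K, ((univ \ o).filter (fun v => c v = b)).card = 1) (b : ℕ) :
    (univ.filter (fun v => c v = b)).card = if b ∈ K ∪ o.image c0 then 1 else 0 := by
  by_cases hb : b ∈ K
  · rw [if_pos (mem_union_left _ hb), ← h1 b hb]
    congr 1
    ext v
    simp only [mem_filter, mem_sdiff, mem_univ, true_and]
    refine ⟨fun h' => ⟨fun hv => ?_, h'⟩, fun h' => h'.2⟩
    rw [hO.co v hv] at h'
    exact hK0 v hv (h' ▸ hb)
  · by_cases hb2 : b ∈ o.image c0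
    · rw [if_pos (mem_union_right _ hb2)]
      obtain ⟨w, hw, hwb⟩ := mem_image.mp hb2
      have h2 : univ.filter (fun v => c v = b) = {w} := by
        ext v
        simp only [mem_filter, mem_univ, true_and, mem_singleton]
        constructor
        · intro hv
          by_cases hvo : v ∈ o
          · rw [hO.co v hvo] at hv
            exact H.oi hvo hw (hv.trans hwb.symm)
          · exact absurd (hv ▸ (hO.cK v hvo).1) hb
        · rintro rfl
          rw [hO.co v hw, hwb]
      rw [h2, card_singleton]
    · rw [if_neg (by rw [mem_union]; tauto), card_eq_zero, filter_eq_empty_iff]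
      intro v _ hv
      by_cases hvo : v ∈ o
      · rw [hO.co v hvo] at hv
        exact hb2 (mem_image.mpr ⟨v, hvo, hv⟩)
      · exact hb (hv ▸ (hO.cK v hvo).1)

theorem wrA {c : V → ℕ} (hcF : ∀ v, c v ∉ F v) {I : Finset ℕ}
    (hn : ∀ b, (univ.filter (fun v => c v = b)).card = if b ∈ I then 1 else 0) :
    (wr (fun v => insert (c v) (F v)) (range (d + 2))).card ≤
      (I.filter (fun b => Even (Fintype.card V - (us F b).card))).card +
      ((range (d + 2) \ I).filter (fun b => ¬ Even (Fintype.card V - (us F b).card))).card := by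
  refine (card_le_card ?_).trans (card_union_le _ _)
  intro b hb
  rw [mem_wr, wr_iff hcF b, hn b] at hb
  rw [mem_union, mem_filter, mem_filter, mem_sdiff]
  by_cases hbI : b ∈ I
  · rw [if_pos hbI] at hb
    left
    exact ⟨hbI, hb.2.mpr (by decide)⟩
  · rw [if_neg hbI] at hb
    right
    refine ⟨⟨hb.1, hbI⟩, fun h' => ?_⟩
    exact absurd (hb.2.mp h') (by decide)

theorem prs0 (S : Finset V) : Prs G S ∅ id :=
  ⟨by simp, by simp, by simp, by simp, by simp⟩

theorem main (hL : MP_db9399_ot.Stmt_LTZ.{u}) (H : LK G d x y h s z F A p a C Z o c0 Z0 R) :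
    ∃ (c : V → ℕ) (t : V → V → ℕ), (∀ v, c v < d + 2) ∧ (∀ v, v ∉ o → c v ∉ A v) ∧
      (∀ v ∈ o, c v = c0 v) ∧ (∀ v w, G.Adj v w → c v ≠ c w) ∧
      (∀ v ∈ o, ∀ w, w ≠ v → c w ≠ c v) ∧
      (∀ b, (univ.filter (fun v => c v = b)).card ≤ 2) ∧
      PEF G d (fun v => insert (c v) (F v)) t := by
  rcases isEmpty_or_nonempty V with hV | hV
  · refine ⟨fun _ => 0, fun _ _ => 0, fun v => isEmptyElim v, fun v => isEmptyElim v,
      fun v => isEmptyElim v, fun v => isEmptyElim v, fun v => isEmptyElim v, ?_,
      fun v => isEmptyElim v, fun v => isEmptyElim v, fun v => isEmptyElim v⟩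
    intro b
    rw [univ_eq_empty, filter_empty, card_empty]
    omega
  have hcV := cV H
  have ho := H.o2
  have hR2 := H.R2
  have hZz := H.Zz
  have hZc := H.Zc
  have hx1 := H.x1
  have hS : (univ \ o).card + o.card = Fintype.card V := by
    rw [← card_univ]
    exact card_sdiff_add_card_eq_card (subset_univ o)
  have hoR : Disjoint R (o.image c0) := by
    rcases o.eq_empty_or_nonempty with h1 | h1
    · rw [h1, image_empty]; exact disjoint_empty_right _
    · rw [H.oR h1]; exact disjoint_empty_left _
  have him : (o.image c0).card = o.card := card_image_of_injOn H.oi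
  have hol : o.image c0 ⊆ range (d + 2) := by
    intro b hb
    obtain ⟨v, hv, rfl⟩ := mem_image.mp hb
    exact mem_range.mpr (H.oc v hv).1
  have hRl : R ⊆ range (d + 2) := fun b hb => mem_range.mpr (H.Rlt b hb)
  obtain ⟨W, hW⟩ : ∃ W, W = range (d + 2) \ (R ∪ o.image c0) := ⟨_, rfl⟩
  have hWl : W ⊆ range (d + 2) := by rw [hW]; exact sdiff_subset
  have hWR : Disjoint W R := by
    rw [hW, disjoint_left]
    exact fun b hb hb' => (mem_sdiff.mp hb).2 (mem_union_left _ hb')
  have hWo : ∀ v ∈ o, c0 v ∉ W := by
    intro v hv hb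
    rw [hW] at hb
    exact (mem_sdiff.mp hb).2 (mem_union_right _ (mem_image_of_mem c0 hv))
  have hWc : W.card + (R.card + o.card) = d + 2 := by
    rw [hW, ← him, ← card_union_of_disjoint hoR]
    have h1 := card_sdiff_add_card_eq_card (union_subset hRl hol)
    rw [card_range] at h1
    exact h1
  by_cases hB : d + 2 < Fintype.card V + R.card
  · -- Case B
    obtain ⟨q, hq⟩ : ∃ q, Fintype.card V + R.card = d + 2 + q :=
      ⟨Fintype.card V + R.card - (d + 2), by omega⟩
    obtain ⟨hqx, hpr⟩ := prs H hq
    have hwr : ∀ c : V → ℕ, (wr (fun v => insert (c v) (F v)) (range (d + 2))).card ≤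
        Fintype.card V + 1 := by
      intro c
      have h1 : (wr (fun v => insert (c v) (F v)) (range (d + 2))).card ≤ (range (d + 2)).card :=
        card_le_card (filter_subset _ _)
      rw [card_range] at h1
      omega
    by_cases hz : Z0.card + 2 * q ≤ z
    · obtain ⟨P, f, hP, hPc⟩ := hpr o (by omega)
      obtain ⟨c, hc, -⟩ := core1 H hWl hWR hP (by omega) (by omega) (by omega)
      exact fin hL H hWl hWo hc (hwr c)
    · obtain ⟨c, hc⟩ := core2 H hWl hWR (q := q) (by omega) (by omega)
        (fun X _ hX => hpr X (by omega))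
      exact fin hL H hWl hWo hc (hwr c)
  · -- Case A
    obtain ⟨E, hE⟩ : ∃ E : ℕ → Prop, ∀ b, E b ↔ Even (Fintype.card V - (us F b).card) :=
      ⟨_, fun _ => Iff.rfl⟩
    by_cases h3 : R.card = 2 ∧ (∀ b ∈ R, ¬ E b) ∧ ∀ b, b < d + 2 → b ∉ R → E b
    · -- one pair
      obtain ⟨hRc, hRE, hE2⟩ := h3
      have ho0 : o = ∅ := by
        by_contra hne
        rw [H.oR (nonempty_iff_ne_empty.mpr hne), card_empty] at hRc
        omega
      obtain ⟨v, w, hvw, hna⟩ : ∃ v w, v ≠ w ∧ ¬ G.Adj v w := by
        rcases H.Rp with h1 | h1 | h1 | h1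
        · omega
        · exact h1
        · obtain ⟨b, hb, hb2⟩ := h1
          exact absurd ((hE b).mpr hb2) (hRE b hb)
        · obtain ⟨b, hb, hbR, hb2⟩ := h1
          have h2 := (hE b).mp (hE2 b hb hbR)
          exact absurd h2 (Nat.not_even_iff_odd.mpr hb2)
      have ho1 : o.card = 0 := by rw [ho0, card_empty]
      obtain ⟨K, hKW, hKc⟩ : ∃ K ⊆ W, K.card = Fintype.card V - 1 :=
        exists_subset_card_eq (by omega)
      have hP : Prs G (univ \ o) {v} (fun _ => w) := by
        rw [ho0, sdiff_empty]
        refine ⟨subset_univ _, fun _ _ => mem_univ _, ?_, ?_, ?_⟩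
        · intro u _
          rw [mem_singleton]
          exact fun h' => hvw h'.symm
        · intro u hu u' hu' _
          rw [mem_coe, mem_singleton] at hu hu'
          rw [hu, hu']
        · intro u hu
          rw [mem_singleton.mp hu]
          exact hna
      obtain ⟨c, hc, hc1⟩ := core1 H (hKW.trans hWl) (disjoint_of_subset_left hKW hWR) hP
        (by rw [card_singleton]; omega) (by rw [card_singleton]; omega)
        (by rw [card_singleton]; omega)
      have hcF := cF H hc
      apply fin hL H (hKW.trans hWl) (fun u hu h' => hWo u hu (hKW h')) hc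
      have hcK : ∀ u, c u ∈ K := fun u => (hc.cK u (by rw [ho0]; exact notMem_empty u)).1
      have hsum : ∑ b ∈ K, (univ.filter (fun u => c u = b)).card = Fintype.card V := by
        rw [← card_univ]
        exact (card_eq_sum_card_fiberwise (fun u _ => hcK u)).symm
      have hc1' : ∀ b ∈ K.erase (c v), (univ.filter (fun u => c u = b)).card = 1 := by
        intro b hb
        rw [mem_erase] at hb
        have h1 := hc1 b hb.2 (by
          rw [image_singleton, mem_singleton]
          exact hb.1)
        rw [ho0, sdiff_empty] at h1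
        exact h1
      have h2 : (univ.filter (fun u => c u = c v)).card = 2 := by
        rw [← add_sum_erase K _ (hcK v), sum_congr rfl hc1', sum_const, smul_eq_mul,
          card_erase_of_mem (hcK v)] at hsum
        omega
      have h4 : wr (fun v => insert (c v) (F v)) (range (d + 2)) ⊆ R ∪ K.erase (c v) := by
        intro b hb
        rw [mem_wr, wr_iff hcF b] at hb
        rw [mem_union, mem_erase]
        by_cases hbR : b ∈ R
        · exact Or.inl hbR
        · right
          have h5 := hb.2.mp ((hE b).mp (hE2 b (mem_range.mp hb.1) hbR))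
          constructor
          · rintro rfl
            rw [h2] at h5
            exact absurd h5 (by decide)
          · by_contra hbK
            have h6 : univ.filter (fun u => c u = b) = ∅ := by
              rw [filter_eq_empty_iff]
              intro u _ hu
              exact hbK (hu ▸ hcK u)
            rw [h6, card_empty] at h5
            exact absurd h5 (by decide)
      have h5 := card_le_card h4
      have h6 := card_union_le R (K.erase (c v))
      rw [card_erase_of_mem (hcK v)] at h6
      omega
    · -- injective own colours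
      obtain ⟨n, hn⟩ : ∃ n, d + 2 = Fintype.card V + R.card + n :=
        ⟨d + 2 - Fintype.card V - R.card, by omega⟩
      obtain ⟨U, hUW, hUc, hU⟩ : ∃ U ⊆ W, U.card = n ∧ (U ⊆ W.filter E ∨ W.filter E ⊆ U) := by
        by_cases h4 : n ≤ (W.filter E).card
        · obtain ⟨U, hU, hUc⟩ := exists_subset_card_eq h4
          exact ⟨U, hU.trans (filter_subset _ _), hUc, Or.inl hU⟩
        · obtain ⟨U, hU1, hU2, hUc⟩ := exists_subsuperset_card_eq (filter_subset E W)
            (n := n) (by omega) (by omega)
          exact ⟨U, hU2, hUc, Or.inr hU1⟩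
      have hKc : (W \ U).card + U.card = W.card := card_sdiff_add_card_eq_card hUW
      have hKW : W \ U ⊆ W := sdiff_subset
      have hK0 : ∀ v ∈ o, c0 v ∉ W \ U := fun v hv h' => hWo v hv (hKW h')
      obtain ⟨c, hc, hc1⟩ := core1 H (hKW.trans hWl) (disjoint_of_subset_left hKW hWR)
        (prs0 (univ \ o)) (by rw [card_empty]; omega) (by rw [card_empty]; omega)
        (by rw [card_empty]; omega)
      have hcF := cF H hc
      have hus := usd H hK0 hc (fun b hb => hc1 b hb (by simp))
      apply fin hL H (hKW.trans hWl) hK0 hc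
      have hw := wrA (d := d) hcF hus
      obtain ⟨I, hI⟩ : ∃ I, I = W \ U ∪ o.image c0 := ⟨_, rfl⟩
      rw [← hI] at hw
      have hdI : Disjoint (W \ U) (o.image c0) := by
        rw [disjoint_left]
        intro b hb hb'
        obtain ⟨v, hv, rfl⟩ := mem_image.mp hb'
        exact hK0 v hv hb
      have hIc : I.card = Fintype.card V := by
        rw [hI, card_union_of_disjoint hdI, him]
        omega
      have hIr : ∀ b, b < d + 2 → (b ∈ I ↔ b ∉ R ∧ b ∉ U) := by
        intro b hb
        rw [hI, mem_union, mem_sdiff, hW, mem_sdiff, mem_union, mem_range]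
        constructor
        · rintro (h5 | h5)
          · exact ⟨fun h6 => h5.1.2 (Or.inl h6), h5.2⟩
          · refine ⟨fun h6 => disjoint_left.mp hoR h6 h5, fun h6 => ?_⟩
            have h7 := hUW h6
            rw [hW, mem_sdiff, mem_union] at h7
            exact h7.2 (Or.inr h5)
        · rintro ⟨h5, h6⟩
          by_cases h7 : b ∈ o.image c0
          · exact Or.inr h7
          · left
            refine ⟨⟨hb, ?_⟩, h6⟩
            tauto
      have e1 : (I.filter (fun b => Even (Fintype.card V - (us F b).card))) = I.filter E :=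
        filter_congr (fun b _ => (hE b).symm)
      have e2 : ((range (d + 2) \ I).filter
          (fun b => ¬ Even (Fintype.card V - (us F b).card))) =
          (range (d + 2) \ I).filter (fun b => ¬ E b) :=
        filter_congr (fun b _ => not_congr (hE b).symm)
      rw [e1, e2] at hw
      rcases hU with hU | hU
      · have h4 := card_filter_add_card_filter_not (s := I) E
        have h5 : (range (d + 2) \ I).filter (fun b => ¬ E b) ⊆ R.filter (fun b => ¬ E b) := by
          intro b hb
          rw [mem_filter, mem_sdiff, mem_range] at hb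
          rw [mem_filter]
          refine ⟨?_, hb.2⟩
          have h6 := hb.1.2
          rw [hIr b hb.1.1] at h6
          by_contra hbR
          have h7 : b ∈ U := by
            by_contra hbU
            exact h6 ⟨hbR, hbU⟩
          exact hb.2 (mem_filter.mp (hU h7)).2
        have h6 := card_le_card h5
        have h7 : (R.filter (fun b => ¬ E b)).card ≤ (I.filter (fun b => ¬ E b)).card + 1 := by
          by_contra hcon
          have h8 : (R.filter (fun b => ¬ E b)).card ≤ R.card := card_filter_le _ _
          have h9 : R.filter (fun b => ¬ E b) = R :=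
            eq_of_subset_of_card_le (filter_subset _ _) (by omega)
          apply h3
          refine ⟨by omega, fun b hb => ?_, fun b hb hbR => ?_⟩
          · rw [← h9] at hb
            exact (mem_filter.mp hb).2
          · by_contra hbE
            have h10 : b ∈ I.filter (fun b => ¬ E b) := by
              rw [mem_filter, hIr b hb]
              exact ⟨⟨hbR, fun hbU => hbE (mem_filter.mp (hU hbU)).2⟩, hbE⟩
            have h11 := card_pos.mpr ⟨b, h10⟩
            omega
        omega
      · have h4 : I.filter E ⊆ o.image c0 := by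
          intro b hb
          rw [mem_filter, hI, mem_union, mem_sdiff] at hb
          rcases hb.1 with h5 | h5
          · exact absurd (hU (mem_filter.mpr ⟨h5.1, hb.2⟩)) h5.2
          · exact h5
        have h5 := card_le_card h4
        have h6 : (range (d + 2) \ I).filter (fun b => ¬ E b) ⊆ R ∪ U := by
          intro b hb
          rw [mem_filter, mem_sdiff, mem_range] at hb
          have h6 := hb.1.2
          rw [hIr b hb.1.1] at h6
          rw [mem_union]
          tauto
        have h7 := card_le_card h6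
        have h8 := card_union_le R U
        omega

end LOCK

/-- LOCK -/
theorem stmt_LOCK (hL : MP_db9399_ot.Stmt_LTZ.{u}) : Stmt_LOCK.{u} := by
  intro V _ G d x y h s z F A p a C Z o c0 Z0 R H
  exact LOCK.main hL H

end Pool.Agent.Work.MP_db9399_da.helper26
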