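import Pool.Agent.Work.MP_db9399_da_helper26.PRX
import Pool.Agent.Work.MP_db9399_da_helper30.DEX
import Pool.Agent.Work.MP_db9399_dp_helper82.PREE
import Pool.Agent.Work.MP_db9399_da_helper82.SHF
import Pool.Agent.Work.MP_db9399_da_helper93.INI
import Pool.Agent.Work.MP_db9399_da_helper94.CNH
import Pool.Agent.Work.MP_db9399_da_helper94.FIXH
import Pool.Agent.Work.MP_db9399_da_helper46.CNS
import Pool.Agent.Work.MP_db9399_da_helper46.FIXS
import Pool.Agent.Work.MP_db9399_da_helper45.PAR1
import Pool.Agent.Work.MP_db9399_da_helper74.PAR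
import Pool.Agent.Work.MP_db9399_da_helper72.STPA
import Pool.Agent.Work.MP_db9399_da_helper85.STPB
import Pool.Agent.Work.MP_db9399_da_helper99.CMP
import Pool.Agent.Work.MP_db9399_da_helper99.EXF
import Pool.Agent.Work.MP_db9399_da_helper26.FRE

/-!
# MP_db9399, DENSE-ALL, phase 2: PRE2 without hypotheses (helper26; blocks by helper30, 45, 46, 72,
74, 82, 85, 93, 94, 99)
-/

set_option autoImplicit false

namespace Pool.Agent.Work.MP_db9399_da.helper26

open Pool.Agent.Work.MP_db9399_da

universe u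

/-- PRE2 -/
theorem stmt_PRE2 : Stmt_PRE2.{u} :=
  PRX.prx MP_db9399_dp.helper82.stmt_PREE helper82.stmt_SHF helper93.stmt_INI
    (helper46.stmt_FIXS stmt_FRE (helper72.stmt_STPA helper30.stmt_DEX))
    (helper94.stmt_FIXH helper94.stmt_CNH stmt_FRE (helper72.stmt_STPA helper30.stmt_DEX))
    (helper94.stmt_FIXO helper94.stmt_CNH stmt_FRE (helper72.stmt_STPA helper30.stmt_DEX))
    (helper74.stmt_PAR (helper45.stmt_PAR1 helper46.stmt_CNS helper85.stmt_STPB))
    helper99.stmt_EXF helper99.stmt_CMP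

end Pool.Agent.Work.MP_db9399_da.helper26
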